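import Pool.Agent.TH826.MK.Milnor
set_option autoImplicit false

/-!
Relations in the rational Milnor K-groups of a field, and symbols in the unit part.
-/

namespace Pool.Agent.TH826.SX

open scoped WithZero

open Pool.Agent.TH826.MK

section Milnor

variable {L : Type*} [Field L] {n : ℕ}

theorem symb_upd_one (a : Fin n → Lˣ) (k : Fin n) : symb (Function.update a k 1) = 0 := by
  have h4 := symb_update_zpow a k 1 0
  rwa [zpow_zero, Int.cast_zero, zero_smul] at h4

theorem symb_upd_inv (a : Fin n → Lˣ) (k : Fin n) (x : Lˣ) :
    symb (Function.update a k x⁻¹) = - symb (Function.update a k x) := by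
  have h4 := symb_update_zpow a k x (-1)
  rwa [zpow_neg_one, Int.cast_neg, Int.cast_one, neg_smul, one_smul] at h4

theorem symb_upd_neg_one (a : Fin n → Lˣ) (k : Fin n) :
    symb (Function.update a k (-1)) = 0 := by
  have h4 := symb_update_zpow a k (-1) 2
  have e : ((-1 : Lˣ)) ^ (2 : ℤ) = 1 := by
    rw [zpow_ofNat, neg_one_sq]
  rw [e, symb_upd_one] at h4
  have h2 : ((2 : ℤ) : ℚ) ≠ 0 := by norm_num
  exact (smul_eq_zero.1 h4.symm).resolve_left h2

theorem symb_upd_neg (a : Fin n → Lˣ) (k : Fin n) (x : Lˣ) :
    symb (Function.update a k (-x)) = symb (Function.update a k x) := by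
  have e : -x = -1 * x := by rw [neg_one_mul]
  rw [e, symb_update_mul, symb_upd_neg_one, zero_add]

theorem symb_neg_on (a : Fin n → Lˣ) (T : Finset (Fin n)) :
    symb (fun k => if k ∈ T then -a k else a k) = symb a := by
  classical
  induction T using Finset.induction_on with
  | empty => simp
  | insert j T hj ih =>
    rw [← ih]
    have e : (fun k => if k ∈ insert j T then -a k else a k) =
        Function.update (fun k => if k ∈ T then -a k else a k) j (-a j) := by
      funext k
      by_cases h : k = j
      · subst h; simp
      · simp [Function.update_of_ne h, h]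
    have e2 : Function.update (fun k => if k ∈ T then -a k else a k) j (a j) =
        fun k => if k ∈ T then -a k else a k := by
      rw [Function.update_eq_self_iff]
      simp [hj]
    rw [e, symb_upd_neg, e2]

theorem symb_self_neg (a : Fin n → Lˣ) {i j : Fin n} (hij : i ≠ j) (h : a j = -a i) :
    symb a = 0 := by
  by_cases h1 : (a i : L) = 1
  · have h2 : a i = 1 := Units.ext h1
    have h3 := symb_upd_one a i
    rwa [← h2, Function.update_eq_self] at h3
  · have hb0 : (1 : L) - a i ≠ 0 := sub_ne_zero.2 (Ne.symm h1)
    have hx0 : (a i : L) ≠ 0 := (a i).ne_zero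
    have hc0 : (1 : L) - (a i : L)⁻¹ ≠ 0 := by
      rw [sub_ne_zero]
      intro e
      exact h1 (inv_eq_one.1 e.symm)
    set b : Lˣ := Units.mk0 _ hb0 with hb
    set c : Lˣ := Units.mk0 _ hc0 with hc
    have hbc : b = a j * c := by
      apply Units.ext
      rw [h, hb, hc]
      simp only [Units.val_mk0, Units.val_mul, Units.val_neg]
      field_simp
      ring
    have e1 : symb (Function.update a j b) = 0 := by
      refine symb_eq_zero' _ hij ?_
      rw [Function.update_of_ne hij, Function.update_self, hb, Units.val_mk0]
      ring
    have e2 : symb (Function.update (Function.update a j c) i (a i)⁻¹) = 0 := by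
      refine symb_eq_zero' _ hij ?_
      rw [Function.update_self, Function.update_of_ne hij.symm, Function.update_self, hc,
        Units.val_mk0, Units.val_inv_eq_inv_val]
      ring
    rw [symb_upd_inv, neg_eq_zero] at e2
    have e3 : Function.update (Function.update a j c) i (a i) = Function.update a j c := by
      rw [Function.update_eq_self_iff, Function.update_of_ne hij]
    rw [e3] at e2
    rw [hbc, symb_update_mul, e2, add_zero, Function.update_eq_self] at e1
    exact e1

theorem symb_self (a : Fin n → Lˣ) {i j : Fin n} (hij : i ≠ j) (h : a j = a i) :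
    symb a = 0 := by
  have h1 : symb (Function.update a j (-a i)) = 0 :=
    symb_self_neg _ hij (by rw [Function.update_self, Function.update_of_ne hij])
  rwa [symb_upd_neg, ← h, Function.update_eq_self] at h1

/-- Milnor's lemma: the symbols with entries (on a subset) of sum one vanish. -/
theorem symb_eq_zero_of_sum (m : ℕ) : ∀ (T : Finset (Fin n)) (a : Fin n → Lˣ), T.card = m →
    ∑ k ∈ T, (a k : L) = 1 → symb a = 0 := by
  classical
  induction m with
  | zero =>
    intro T a hT h
    rw [Finset.card_eq_zero] at hT
    rw [hT, Finset.sum_empty] at h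
    exact absurd h zero_ne_one
  | succ m ih =>
    intro T a hT h
    by_cases hm : m = 0
    · subst hm
      obtain ⟨t, rfl⟩ := Finset.card_eq_one.1 hT
      rw [Finset.sum_singleton] at h
      have h2 : a t = 1 := Units.ext h
      have h3 := symb_upd_one a t
      rwa [← h2, Function.update_eq_self] at h3
    · obtain ⟨i, hi, j, hj, hij⟩ := Finset.one_lt_card.1 (show 1 < T.card by omega)
      by_cases hs : (a i : L) + a j = 0
      · refine symb_self_neg a hij (Units.ext ?_)
        rw [Units.val_neg]
        exact eq_neg_of_add_eq_zero_right hs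
      · set s : Lˣ := Units.mk0 _ hs with hsdef
        have hsv : (s : L) = a i + a j := rfl
        have hsum : ∑ k ∈ T, (a k : L) = a i + (a j + ∑ k ∈ (T.erase i).erase j, (a k : L)) := by
          rw [← Finset.add_sum_erase _ _ hi,
            ← Finset.add_sum_erase (T.erase i) _ (Finset.mem_erase.2 ⟨hij.symm, hj⟩)]
        have hU : ∀ k ∈ (T.erase i).erase j, k ≠ i ∧ k ≠ j := fun k hk =>
          ⟨Finset.ne_of_mem_erase (Finset.mem_of_mem_erase hk), Finset.ne_of_mem_erase hk⟩
        -- entry `i` replaced by `s`
        have c1 : symb (Function.update a i s) = 0 := by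
          refine ih (T.erase j) _ (by rw [Finset.card_erase_of_mem hj, hT]; rfl) ?_
          rw [← Finset.add_sum_erase (T.erase j) _ (Finset.mem_erase.2 ⟨hij, hi⟩),
            Function.update_self, hsv, Finset.erase_right_comm]
          rw [Finset.sum_congr rfl fun k hk => by rw [Function.update_of_ne (hU k hk).1]]
          rw [← h, hsum]
          ring
        have c2 : symb (Function.update a j s) = 0 := by
          refine ih (T.erase i) _ (by rw [Finset.card_erase_of_mem hi, hT]; rfl) ?_
          rw [← Finset.add_sum_erase (T.erase i) _ (Finset.mem_erase.2 ⟨hij.symm, hj⟩),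
            Function.update_self, hsv]
          rw [Finset.sum_congr rfl fun k hk => by rw [Function.update_of_ne (hU k hk).2]]
          rw [← h, hsum]
          ring
        have c3 : symb (Function.update (Function.update a i s) j s) = 0 :=
          symb_self _ hij (by rw [Function.update_self, Function.update_of_ne hij,
            Function.update_self])
        have c4 : symb (Function.update (Function.update a i (a i * s⁻¹)) j (a j * s⁻¹)) = 0 := by
          refine symb_eq_zero' _ hij ?_
          rw [Function.update_of_ne hij, Function.update_self, Function.update_self,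
            Units.val_mul, Units.val_mul, Units.val_inv_eq_inv_val, ← add_mul, hsv]
          exact mul_inv_cancel₀ hs
        have d1 : Function.update (Function.update a i (a i * s⁻¹)) j (a j) =
            Function.update a i (a i * s⁻¹) := by
          rw [Function.update_eq_self_iff, Function.update_of_ne hij.symm]
        have d2 : symb (Function.update (Function.update a i (a i * s⁻¹)) j s) = 0 := by
          rw [Function.update_comm hij, symb_update_mul, symb_upd_inv,
            Function.update_comm hij.symm, Function.update_comm hij.symm, c3, neg_zero, add_zero,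
            Function.update_eq_self]
          exact c2
        rw [symb_update_mul, d1, symb_upd_inv, d2, neg_zero, add_zero, symb_update_mul,
          symb_upd_inv, c1, neg_zero, add_zero, Function.update_eq_self] at c4
        exact c4

theorem symb_eq_zero_of_sum_neg (T : Finset (Fin n)) (a : Fin n → Lˣ)
    (h : ∑ k ∈ T, (a k : L) = -1) : symb a = 0 := by
  rw [← symb_neg_on a T]
  refine symb_eq_zero_of_sum _ T _ rfl ?_
  rw [Finset.sum_congr rfl fun k hk => by rw [if_pos hk, Units.val_neg], Finset.sum_neg_distrib, h,
    neg_neg]

/-- A symbol with integral entries whose sum is congruent to `-1` lies in the unit part. -/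
theorem mem_unitPart_of_sum (v : Valuation L ℤᵐ⁰) (a : Fin n → Lˣ) (h1 : ∀ k, v (a k : L) ≤ 1)
    (h : v (1 + ∑ k, (a k : L)) < 1) : symb a ∈ unitPart v n := by
  classical
  set T : Finset (Fin n) := Finset.univ.filter fun k => v (a k : L) = 1 with hT
  have hrest : v (∑ k ∈ Finset.univ.filter (fun k => ¬ v (a k : L) = 1), (a k : L)) < 1 := by
    refine Valuation.map_sum_lt v one_ne_zero fun k hk => ?_
    exact lt_of_le_of_ne (h1 k) (Finset.mem_filter.1 hk).2
  have hTsum : v (1 + ∑ k ∈ T, (a k : L)) < 1 := by
    have e : 1 + ∑ k ∈ T, (a k : L) = (1 + ∑ k, (a k : L)) -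
        ∑ k ∈ Finset.univ.filter (fun k => ¬ v (a k : L) = 1), (a k : L) := by
      rw [← Finset.sum_filter_add_sum_filter_not Finset.univ (fun k => v (a k : L) = 1)]
      ring
    rw [e]
    exact (v.map_sub _ _).trans_lt (max_lt h hrest)
  have hne : T.Nonempty := by
    by_contra hcon
    rw [Finset.not_nonempty_iff_eq_empty] at hcon
    rw [hcon, Finset.sum_empty, add_zero, map_one] at hTsum
    exact lt_irrefl _ hTsum
  obtain ⟨t, ht⟩ := hne
  have hvt : v (a t : L) = 1 := (Finset.mem_filter.1 ht).2
  set e : L := -1 - ∑ k ∈ T.erase t, (a k : L) with he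
  have hsub : (a t : L) - e = 1 + ∑ k ∈ T, (a k : L) := by
    rw [he, ← Finset.add_sum_erase T _ ht]
    ring
  have hve : v e = 1 := by
    have e1 : e = a t - ((a t : L) - e) := by ring
    rw [e1, hsub, ← hvt]
    refine Valuation.map_sub_eq_of_lt_left v ?_
    rw [hvt]
    exact hTsum
  have he0 : e ≠ 0 := by
    intro h0
    rw [h0, map_zero] at hve
    exact zero_ne_one hve
  set e' : Lˣ := Units.mk0 e he0 with he'
  have hq : a t = e' * (a t / e') := by rw [mul_div_cancel]
  have h2 : symb a = symb (Function.update a t e') + symb (Function.update a t (a t / e')) := by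
    rw [← symb_update_mul, ← hq, Function.update_eq_self]
  rw [h2]
  refine Submodule.add_mem _ ?_ ?_
  · rw [symb_eq_zero_of_sum_neg T]
    · exact Submodule.zero_mem _
    · rw [← Finset.add_sum_erase T _ ht, Function.update_self,
        Finset.sum_congr rfl fun k hk => by rw [Function.update_of_ne (Finset.ne_of_mem_erase hk)],
        he', Units.val_mk0, he]
      ring
  · refine mem_unitPart_of_oneUnit' v t _ ?_
    rw [Function.update_self, Units.val_div_eq_div_val, he', Units.val_mk0, div_sub_one he0,
      map_div₀, hve, div_one, hsub]
    exact hTsum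

/-- The symbols `{z_1/z_0, ..., z_n/z_0}` change only the sign if `z_0` and `z_l` are
exchanged. -/
theorem symb_swap (z : Fin (n + 1) → Lˣ) (l : Fin n) :
    symb (fun k : Fin n => z k.succ / z 0) =
      - symb (fun k : Fin n => if k = l then z 0 / z l.succ else z k.succ / z l.succ) := by
  classical
  set a : Fin n → Lˣ := fun k => z k.succ / z 0 with ha
  have key : ∀ T : Finset (Fin n), l ∉ T →
      symb (fun k => if k ∈ T then a k / a l else a k) = symb a := by
    intro T
    induction T using Finset.induction_on with
    | empty => intro _; simp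
    | insert j T hj ih =>
      intro hl
      have hlj : l ≠ j := fun e => hl (e ▸ Finset.mem_insert_self _ _)
      have hlT : l ∉ T := fun e => hl (Finset.mem_insert_of_mem e)
      rw [← ih hlT]
      set b : Fin n → Lˣ := fun k => if k ∈ T then a k / a l else a k with hb
      have hbl : b l = a l := by simp [hb, hlT]
      have hbj : b j = a j := by simp [hb, hj]
      have e : (fun k => if k ∈ insert j T then a k / a l else a k) =
          Function.update b j (a j * (a l)⁻¹) := by
        funext k
        by_cases h : k = j
        · subst h; simp [div_eq_mul_inv]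
        · simp [Function.update_of_ne h, h, hb]
      rw [e, symb_update_mul, symb_upd_inv, ← hbj, Function.update_eq_self]
      have h0 : symb (Function.update b j (a l)) = 0 :=
        symb_self _ hlj (by rw [Function.update_self, Function.update_of_ne hlj, hbl])
      rw [h0, neg_zero, add_zero]
  rw [← key (Finset.univ.erase l) (Finset.notMem_erase l _)]
  set c : Fin n → Lˣ := fun k => if k = l then z 0 / z l.succ else z k.succ / z l.succ with hc
  have e : (fun k => if k ∈ Finset.univ.erase l then a k / a l else a k) =
      Function.update c l (z 0 / z l.succ)⁻¹ := by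
    funext k
    by_cases h : k = l
    · subst h
      simp [ha]
    · rw [if_pos (Finset.mem_erase.2 ⟨h, Finset.mem_univ k⟩), Function.update_of_ne h]
      simp [hc, h, ha]
  have e2 : Function.update c l (z 0 / z l.succ) = c := by
    rw [Function.update_eq_self_iff]
    simp [hc]
  rw [e, symb_upd_inv, e2]

/-- The symbols `{z_1/z_0, ..., z_n/z_0}` lie in the unit part, if the sum of the `z_k` is of
smaller order than the largest `z_k`. -/
theorem mem_unitPart_of_sum_lt (v : Valuation L ℤᵐ⁰) (z : Fin (n + 1) → Lˣ) (l : Fin (n + 1))
    (hl : ∀ k, v (z k : L) ≤ v (z l : L)) (h : v (∑ k, (z k : L)) < v (z l : L)) :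
    symb (fun k : Fin n => z k.succ / z 0) ∈ unitPart v n := by
  have hdiv : ∀ k j, ((z k / z j : Lˣ) : L) = (z k : L) / (z j : L) := fun k j =>
    Units.val_div_eq_div_val _ _
  have hl0 : (z l : L) ≠ 0 := (z l).ne_zero
  have hvl0 : 0 < v (z l : L) := by
    rw [Valuation.pos_iff]
    exact hl0
  have hle : ∀ k, v ((z k : L) / z l) ≤ 1 := by
    intro k
    rw [map_div₀, div_le_one₀ hvl0]
    exact hl k
  have hlt : v ((∑ k, (z k : L)) / z l) < 1 := by
    rw [map_div₀, div_lt_one₀ hvl0]
    exact h
  revert hl0 hvl0 hle hlt
  refine Fin.cases ?_ (fun l => ?_) l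
  · intro hl0 hvl0 hle hlt
    refine mem_unitPart_of_sum v _ (fun k => ?_) ?_
    · rw [hdiv]
      exact hle _
    · simp only [hdiv]
      have e : 1 + ∑ k : Fin n, (z k.succ : L) / z 0 = (∑ k, (z k : L)) / z 0 := by
        rw [Fin.sum_univ_succ, add_div, Finset.sum_div, div_self hl0]
      rw [e]
      exact hlt
  · intro hl0 hvl0 hle hlt
    rw [symb_swap z l]
    refine Submodule.neg_mem _ (mem_unitPart_of_sum v _ (fun k => ?_) ?_)
    · by_cases hk : k = l
      · rw [if_pos hk, hdiv]; exact hle _
      · rw [if_neg hk, hdiv]; exact hle _
    · have e : 1 + ∑ k : Fin n, ((if k = l then z 0 / z l.succ else z k.succ / z l.succ : Lˣ) : L) =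
          (∑ k, (z k : L)) / z l.succ := by
        rw [Fin.sum_univ_succ, ← Finset.add_sum_erase _ _ (Finset.mem_univ l),
          ← Finset.add_sum_erase Finset.univ (fun k : Fin n => (z k.succ : L))
            (Finset.mem_univ l), if_pos rfl,
          Finset.sum_congr rfl fun k hk => by rw [if_neg (Finset.ne_of_mem_erase hk), hdiv],
          ← Finset.sum_div, hdiv]
        field_simp
        ring
      rw [e]
      exact hlt

end Milnor

end Pool.Agent.TH826.SX
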