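import Pool.Agent.TH826.MH.Ring
import Pool.Agent.TH826.SX.Milnor
set_option autoImplicit false

/-!
The varieties `λ ∏_k ∏_i (x_k - a_{k,i}) = 1`, `∑_k x_k = 0` and the symbols on them.
-/

namespace Pool.Agent.TH826.SX

open scoped WithZero

open Pool.Agent.TH826.MK (KQ symb Unramified unitPart)

open Pool.Agent.TH826.MH (eqn)

section Ring

variable {K : Type*} [Field K] {n : ℕ} {r : Fin n → ℕ}

/-- The coordinate ring of the affine variety with the equations
`λ ∏_k ∏_i (x_k - a_{k,i}) = 1`, `∑_k x_k = 0`. -/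
def SRing (lam : K) (a : ∀ k, Fin (r k + 1) → K) : Type _ :=
  MvPolynomial (Fin n) K ⧸ Ideal.span {eqn lam a, ∑ k, MvPolynomial.X k}

variable (lam : K) (a : ∀ k, Fin (r k + 1) → K)

noncomputable instance : CommRing (SRing lam a) :=
  Ideal.Quotient.commRing (Ideal.span {eqn lam a, ∑ k, MvPolynomial.X k})

/-- The polynomials in `x_1, ..., x_n` as functions on the variety. -/
noncomputable def spol : MvPolynomial (Fin n) K →+* SRing lam a :=
  Ideal.Quotient.mk (Ideal.span {eqn lam a, ∑ k, MvPolynomial.X k})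

/-- The function `x_k - c`. -/
noncomputable def sx (k : Fin n) (c : K) : SRing lam a :=
  spol lam a (MvPolynomial.X k - MvPolynomial.C c)

theorem spol_eqn : spol lam a (eqn lam a) = 0 :=
  Ideal.Quotient.eq_zero_iff_mem.2 (Ideal.subset_span (Or.inl rfl))

theorem spol_sum : spol lam a (∑ k, MvPolynomial.X k) = 0 :=
  Ideal.Quotient.eq_zero_iff_mem.2 (Ideal.subset_span (Or.inr rfl))

theorem prod_sx : spol lam a (MvPolynomial.C lam) * ∏ k, ∏ i, sx lam a k (a k i) = 1 := by
  have h := spol_eqn lam a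
  unfold eqn at h
  rw [map_sub, map_mul, map_one, map_prod, sub_eq_zero] at h
  rw [← h]
  congr 1
  refine Finset.prod_congr rfl fun k _ => ?_
  rw [map_prod]
  rfl

theorem isUnit_sx (k : Fin n) (i : Fin (r k + 1)) : IsUnit (sx lam a k (a k i)) := by
  refine isUnit_of_dvd_one ?_
  rw [← prod_sx lam a]
  refine Dvd.dvd.mul_left ?_ _
  exact (Finset.dvd_prod_of_mem (fun i => sx lam a k (a k i)) (Finset.mem_univ i)).trans
    (Finset.dvd_prod_of_mem (fun k => ∏ i, sx lam a k (a k i)) (Finset.mem_univ k))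

/-- The unit `x_k - a_{k,i}` of the coordinate ring. -/
noncomputable def su (k : Fin n) (i : Fin (r k + 1)) : (SRing lam a)ˣ :=
  (isUnit_sx lam a k i).unit

theorem coe_su (k : Fin n) (i : Fin (r k + 1)) :
    (su lam a k i : SRing lam a) = sx lam a k (a k i) := rfl

/-- The entries `(x_k - a_{k,i_k}) / (x_0 - a_{0,i_0})`, `k = 1, ..., n`. -/
noncomputable def sent {n : ℕ} {r : Fin (n + 1) → ℕ} (lam : K) (a : ∀ k, Fin (r k + 1) → K)
    (i : ∀ k, Fin (r k + 1)) (k : Fin n) : (SRing lam a)ˣ :=
  su lam a k.succ (i k.succ) / su lam a 0 (i 0)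

end Ring

section Unram

variable {K : Type*} [Field K] {n : ℕ} {r : Fin (n + 1) → ℕ} {lam : K}
  {a : ∀ k, Fin (r k + 1) → K} {L : Type*} [Field L] (f : SRing lam a →+* L)

/-- the composite map from the coefficient field -/
noncomputable def scst : K →+* L := f.comp ((spol lam a).comp MvPolynomial.C)

/-- the image of `x_k` -/
noncomputable def sL (k : Fin (n + 1)) : L := f (spol lam a (MvPolynomial.X k))

theorem map_sx (k : Fin (n + 1)) (c : K) : f (sx lam a k c) = sL f k - scst f c := by
  unfold sx sL scst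
  rw [map_sub, map_sub]
  rfl

theorem sum_sL : ∑ k, sL f k = 0 := by
  have h := congrArg f (spol_sum lam a)
  rw [map_sum, map_sum, map_zero] at h
  exact h

theorem prod_sL : scst f lam * ∏ k, ∏ i, (sL f k - scst f (a k i)) = 1 := by
  have h := congrArg f (prod_sx lam a)
  rw [map_mul, map_one, map_prod] at h
  rw [← h]
  congr 1
  refine Finset.prod_congr rfl fun k _ => ?_
  rw [map_prod]
  refine Finset.prod_congr rfl fun i _ => ?_
  rw [map_sx]

/-- The symbols are unramified at all discrete valuations. -/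
theorem symb_mem_unitPart (hlam : IsIntegral ℤ lam) (ha : ∀ k i, IsIntegral ℤ (a k i))
    (v : Valuation L ℤᵐ⁰) (i : ∀ k, Fin (r k + 1)) :
    symb (fun l => Units.map (f : SRing lam a →* L) (sent lam a i l)) ∈ unitPart v n := by
  have hc : ∀ c : K, IsIntegral ℤ c → v (scst f c) ≤ 1 := fun c hc =>
    Pool.Agent.TH826.MK.val_le_one_of_integral v (map_isIntegral_int _ hc)
  set z : Fin (n + 1) → Lˣ := fun k => Units.map (f : SRing lam a →* L) (su lam a k (i k)) with hz
  have hzv : ∀ k, (z k : L) = sL f k - scst f (a k (i k)) := fun k => map_sx f k _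
  have hent : (fun l => Units.map (f : SRing lam a →* L) (sent lam a i l)) =
      fun l : Fin n => z l.succ / z 0 := by
    funext l
    exact map_div (Units.map (f : SRing lam a →* L)) _ _
  rw [hent]
  by_cases hA : ∃ k, 1 < v (sL f k)
  · obtain ⟨k, hk⟩ := hA
    obtain ⟨l, -, hl⟩ := Finset.exists_max_image Finset.univ (fun k => v (z k : L))
      ⟨k, Finset.mem_univ k⟩
    have h1 : v (z k : L) = v (sL f k) := by
      rw [hzv]
      exact Valuation.map_sub_eq_of_lt_left v ((hc _ (ha k _)).trans_lt hk)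
    have h2 : 1 < v (z l : L) := by
      refine hk.trans_le ?_
      rw [← h1]
      exact hl k (Finset.mem_univ k)
    refine mem_unitPart_of_sum_lt v z l (fun k => hl k (Finset.mem_univ k)) ?_
    refine lt_of_le_of_lt ?_ h2
    have e : ∑ k, (z k : L) = - ∑ k, scst f (a k (i k)) := by
      simp only [hzv, Finset.sum_sub_distrib]
      rw [sum_sL, zero_sub]
    rw [e, Valuation.map_neg]
    exact Valuation.map_sum_le v fun k _ => hc _ (ha k _)
  · push Not at hA
    have hsub : ∀ k j, v (sL f k - scst f (a k j)) ≤ 1 := fun k j =>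
      (v.map_sub _ _).trans (max_le (hA k) (hc _ (ha k j)))
    have hone := congrArg v (prod_sL f)
    rw [map_mul, map_one, map_prod] at hone
    have hB : ∀ k j, v (sL f k - scst f (a k j)) = 1 := by
      intro k j
      refine le_antisymm (hsub k j) ?_
      rw [← hone]
      rw [← Finset.mul_prod_erase _ _ (Finset.mem_univ k), map_prod,
        ← Finset.mul_prod_erase _ _ (Finset.mem_univ j)]
      have h1 : ∏ x ∈ Finset.univ.erase j, v (sL f k - scst f (a k x)) ≤ 1 :=
        Finset.prod_le_one' fun j _ => hsub k j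
      have h2 : ∏ x ∈ Finset.univ.erase k, v (∏ i, (sL f x - scst f (a x i))) ≤ 1 := by
        refine Finset.prod_le_one' fun k _ => ?_
        rw [map_prod]
        exact Finset.prod_le_one' fun j _ => hsub k j
      calc v (scst f lam) * (v (sL f k - scst f (a k j)) *
            (∏ x ∈ Finset.univ.erase j, v (sL f k - scst f (a k x))) *
            ∏ x ∈ Finset.univ.erase k, v (∏ i, (sL f x - scst f (a x i))))
          ≤ 1 * (v (sL f k - scst f (a k j)) * 1 * 1) :=
            mul_le_mul' (hc _ hlam) (mul_le_mul' (mul_le_mul' le_rfl h1) h2)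
        _ = v (sL f k - scst f (a k j)) := by rw [one_mul, mul_one, mul_one]
    refine Submodule.subset_span ⟨_, fun l => ?_, rfl⟩
    rw [Units.val_div_eq_div_val, map_div₀, hzv, hzv, hB, hB, div_one]

theorem symb_mem_unramified (hlam : IsIntegral ℤ lam) (ha : ∀ k i, IsIntegral ℤ (a k i))
    (i : ∀ k, Fin (r k + 1)) : KQ.map n f (symb (sent lam a i)) ∈ Unramified L n := by
  rw [KQ.map_symb]
  unfold Unramified
  simp only [Submodule.mem_iInf]
  intro v _
  exact symb_mem_unitPart f hlam ha v i

end Unram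

section Domain

variable {K : Type*} [Field K] [Infinite K] {m : ℕ}

open Pool.Agent.TH826.MH (coe0 irr_sub_one)

theorem coe0_props {r : Fin (m + 1 + 1) → ℕ} (lam : K) (a : ∀ k, Fin (r k + 1) → K)
    (hl : lam ≠ 0) (ha : ∀ k, Function.Injective (a k)) :
    ∃ y : Fin (m + 1) → K, MvPolynomial.eval y (coe0 lam a) = 0 ∧ coe0 lam a ≠ 0 ∧
      ∀ g h, MvPolynomial.eval y g = 0 → MvPolynomial.eval y h = 0 → coe0 lam a ≠ g * h := by
  -- the point
  have h1 : ∀ k : Fin m, ∃ x : K, ∀ i, x ≠ a k.succ.succ i := by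
    classical
    intro k
    obtain ⟨x, hx⟩ := Infinite.exists_notMem_finset (Finset.univ.image (a k.succ.succ))
    exact ⟨x, fun i e => hx (by rw [e]; exact Finset.mem_image_of_mem _ (Finset.mem_univ i))⟩
  choose x hx using h1
  set y : Fin (m + 1) → K := Fin.cons (a (Fin.succ 0) 0) x with hy
  -- the splitting of the coefficient
  set q' : MvPolynomial (Fin (m + 1)) K := MvPolynomial.C lam *
    ((∏ i : Fin (r (Fin.succ 0)), (MvPolynomial.X 0 - MvPolynomial.C (a (Fin.succ 0) i.succ))) *
      ∏ k : Fin m, ∏ i, (MvPolynomial.X k.succ - MvPolynomial.C (a k.succ.succ i))) with hq'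
  have hsplit : coe0 lam a = (MvPolynomial.X 0 - MvPolynomial.C (a (Fin.succ 0) 0)) * q' := by
    unfold coe0
    rw [Fin.prod_univ_succ, Fin.prod_univ_succ, hq']
    ring
  have hq'y : MvPolynomial.eval y q' ≠ 0 := by
    rw [hq']
    simp only [map_mul, map_prod, map_sub, MvPolynomial.eval_C, MvPolynomial.eval_X]
    refine mul_ne_zero hl (mul_ne_zero ?_ ?_)
    · refine Finset.prod_ne_zero_iff.2 fun i _ => ?_
      rw [hy, Fin.cons_zero, sub_ne_zero]
      intro e
      exact (Fin.succ_ne_zero i).symm (ha _ e)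
    · refine Finset.prod_ne_zero_iff.2 fun k _ => Finset.prod_ne_zero_iff.2 fun i _ => ?_
      rw [hy, Fin.cons_succ, sub_ne_zero]
      exact hx k i
  have hqy : MvPolynomial.eval y (coe0 lam a) = 0 := by
    rw [hsplit, map_mul, map_sub, MvPolynomial.eval_X, MvPolynomial.eval_C, hy, Fin.cons_zero,
      sub_self, zero_mul]
  have hX : (MvPolynomial.X 0 - MvPolynomial.C (a (Fin.succ 0) 0) :
      MvPolynomial (Fin (m + 1)) K) ≠ 0 := by
    intro h
    have h2 := congrArg (MvPolynomial.eval fun _ => a (Fin.succ 0) 0 + 1) h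
    simp at h2
  have hq0 : coe0 lam a ≠ 0 := by
    rw [hsplit]
    refine mul_ne_zero hX ?_
    rintro e
    rw [e, map_zero] at hq'y
    exact hq'y rfl
  refine ⟨y, hqy, hq0, ?_⟩
  intro g h hg hh e
  have h2 := congrArg (fun p => MvPolynomial.eval y (MvPolynomial.pderiv 0 p)) e
  rw [hsplit] at h2
  simp only [Derivation.leibniz, smul_eq_mul, map_add, map_mul, hg, hh, zero_mul, map_sub,
    MvPolynomial.pderiv_X_self, MvPolynomial.pderiv_C, sub_zero, mul_one,
    MvPolynomial.eval_X, MvPolynomial.eval_C, add_zero] at h2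
  rw [hy, Fin.cons_zero, sub_self, zero_mul, zero_add, ← hy] at h2
  exact hq'y h2

variable {r : Fin (m + 1 + 1 + 1) → ℕ}

/-- the substitution `x_0 = - (x_1 + ... )` -/
noncomputable def elim (K : Type*) [Field K] (n : ℕ) :
    MvPolynomial (Fin (n + 1)) K →ₐ[K] MvPolynomial (Fin n) K :=
  MvPolynomial.aeval (Fin.cons (-∑ k, MvPolynomial.X k) MvPolynomial.X)

omit [Infinite K] in
theorem elim_X_zero (n : ℕ) : elim K n (MvPolynomial.X 0) = -∑ k, MvPolynomial.X k := by
  unfold elim
  rw [MvPolynomial.aeval_X, Fin.cons_zero]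

omit [Infinite K] in
theorem elim_X_succ (n : ℕ) (k : Fin n) :
    elim K n (MvPolynomial.X k.succ) = MvPolynomial.X k := by
  unfold elim
  rw [MvPolynomial.aeval_X, Fin.cons_succ]

omit [Infinite K] in
theorem elim_C (n : ℕ) (c : K) : elim K n (MvPolynomial.C c) = MvPolynomial.C c := by
  unfold elim
  rw [MvPolynomial.aeval_C]
  rfl

omit [Infinite K] in
/-- the substitution is congruent to the identity modulo `∑ x_k` -/
theorem elim_congr (n : ℕ) (p : MvPolynomial (Fin (n + 1)) K) :
    p - MvPolynomial.rename Fin.succ (elim K n p) ∈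
      Ideal.span {(∑ k, MvPolynomial.X k : MvPolynomial (Fin (n + 1)) K)} := by
  have h : (Ideal.Quotient.mkₐ K
      (Ideal.span {(∑ k, MvPolynomial.X k : MvPolynomial (Fin (n + 1)) K)})).comp
      ((MvPolynomial.rename Fin.succ).comp (elim K n)) = Ideal.Quotient.mkₐ K _ := by
    refine MvPolynomial.algHom_ext fun k => ?_
    refine Fin.cases ?_ (fun k => ?_) k
    · simp only [AlgHom.comp_apply]
      rw [elim_X_zero, map_neg, map_sum]
      simp only [MvPolynomial.rename_X]
      refine (Ideal.Quotient.mk_eq_mk_iff_sub_mem _ _).2 ?_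
      have e : -∑ x : Fin n, (MvPolynomial.X x.succ : MvPolynomial (Fin (n + 1)) K) -
          MvPolynomial.X 0 = -∑ k, MvPolynomial.X k := by
        rw [Fin.sum_univ_succ]
        ring
      rw [e]
      exact neg_mem (Ideal.subset_span rfl)
    · simp only [AlgHom.comp_apply]
      rw [elim_X_succ, MvPolynomial.rename_X]
  have h2 := DFunLike.congr_fun h p
  exact (Ideal.Quotient.mk_eq_mk_iff_sub_mem _ _).1 h2.symm

omit [Infinite K] in
theorem elim_sum (n : ℕ) : elim K n (∑ k, MvPolynomial.X k) = 0 := by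
  rw [map_sum, Fin.sum_univ_succ, elim_X_zero]
  simp only [elim_X_succ]
  ring

omit [Infinite K] in
theorem elim_rename (n : ℕ) (p : MvPolynomial (Fin n) K) :
    elim K n (MvPolynomial.rename Fin.succ p) = p := by
  have h : (elim K n).comp (MvPolynomial.rename Fin.succ) = AlgHom.id K _ := by
    refine MvPolynomial.algHom_ext fun k => ?_
    rw [AlgHom.comp_apply, MvPolynomial.rename_X, elim_X_succ]
    rfl
  exact DFunLike.congr_fun h p

omit [Infinite K] in
theorem isPrime_span (n : ℕ) (p : MvPolynomial (Fin (n + 1)) K)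
    (hp : Irreducible (elim K n p)) :
    (Ideal.span {p, (∑ k, MvPolynomial.X k : MvPolynomial (Fin (n + 1)) K)}).IsPrime := by
  have hpr : (Ideal.span {elim K n p}).IsPrime :=
    (Ideal.span_singleton_prime hp.ne_zero).2 hp.prime
  have e : Ideal.span {p, (∑ k, MvPolynomial.X k : MvPolynomial (Fin (n + 1)) K)} =
      (Ideal.span {elim K n p}).comap (elim K n).toRingHom := by
    refine le_antisymm ?_ ?_
    · rw [Ideal.span_le]
      rintro x (rfl | rfl)
      · exact Ideal.subset_span rfl
      · show elim K n (∑ k, MvPolynomial.X k) ∈ Ideal.span {elim K n p}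
        rw [elim_sum]
        exact Ideal.zero_mem _
    · intro x hx
      have hx' : elim K n x ∈ Ideal.span {elim K n p} := hx
      obtain ⟨y, hy⟩ := Ideal.mem_span_singleton.1 hx'
      have hsub : Ideal.span {(∑ k, MvPolynomial.X k : MvPolynomial (Fin (n + 1)) K)} ≤
          Ideal.span {p, (∑ k, MvPolynomial.X k : MvPolynomial (Fin (n + 1)) K)} :=
        Ideal.span_mono (by intro z hz; exact Or.inr hz)
      have h1 := hsub (elim_congr n x)
      have h2 := hsub (elim_congr n p)
      rw [hy, map_mul] at h1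
      have e2 : x = (x - MvPolynomial.rename Fin.succ (elim K n p) *
          MvPolynomial.rename Fin.succ y) - (p - MvPolynomial.rename Fin.succ (elim K n p)) *
          MvPolynomial.rename Fin.succ y + p * MvPolynomial.rename Fin.succ y := by ring
      rw [e2]
      refine add_mem (sub_mem h1 (Ideal.mul_mem_right _ _ h2)) (Ideal.mul_mem_right _ _ ?_)
      exact Ideal.subset_span (Or.inl rfl)
  rw [e]
  exact hpr.comap _

omit [Infinite K] in
theorem finSucc_elim_eqn (lam : K) (a : ∀ k, Fin (r k + 1) → K) :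
    MvPolynomial.finSuccEquiv K (m + 1) (elim K (m + 1 + 1) (eqn lam a)) =
      Polynomial.C (coe0 ((-1) ^ (r 0 + 1) * lam) fun k : Fin (m + 1 + 1) => a k.succ) *
        ((∏ i, (Polynomial.X + Polynomial.C (∑ k, MvPolynomial.X k +
          MvPolynomial.C (a 0 i)))) *
        ∏ i, (Polynomial.X - Polynomial.C (MvPolynomial.C (a (Fin.succ 0) i)))) - 1 := by
  have hC : ∀ c : K, MvPolynomial.finSuccEquiv K (m + 1) (MvPolynomial.C c) =
      Polynomial.C (MvPolynomial.C c) := by
    intro c
    rw [MvPolynomial.finSuccEquiv_apply]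
    simp
  have h0 : ∀ i, MvPolynomial.finSuccEquiv K (m + 1) (elim K (m + 1 + 1)
      (MvPolynomial.X 0 - MvPolynomial.C (a 0 i))) =
      (-1) * (Polynomial.X + Polynomial.C (∑ k, MvPolynomial.X k +
          MvPolynomial.C (a 0 i))) := by
    intro i
    rw [map_sub, elim_X_zero, elim_C, map_sub, map_neg, map_sum, hC, Fin.sum_univ_succ]
    simp only [MvPolynomial.finSuccEquiv_X_zero, MvPolynomial.finSuccEquiv_X_succ]
    rw [map_add, map_sum]
    ring
  have h1 : ∀ i, MvPolynomial.finSuccEquiv K (m + 1) (elim K (m + 1 + 1)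
      (MvPolynomial.X (Fin.succ 0) - MvPolynomial.C (a (Fin.succ 0) i))) =
      Polynomial.X - Polynomial.C (MvPolynomial.C (a (Fin.succ 0) i)) := by
    intro i
    rw [map_sub, elim_X_succ, elim_C, map_sub, hC, MvPolynomial.finSuccEquiv_X_zero]
  have h2 : ∀ (k : Fin (m + 1)) (i), MvPolynomial.finSuccEquiv K (m + 1) (elim K (m + 1 + 1)
      (MvPolynomial.X k.succ.succ - MvPolynomial.C (a k.succ.succ i))) =
      Polynomial.C (MvPolynomial.X k - MvPolynomial.C (a k.succ.succ i)) := by
    intro k i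
    rw [map_sub, elim_X_succ, elim_C, map_sub, hC, MvPolynomial.finSuccEquiv_X_succ, map_sub]
  have e : ∏ k : Fin (m + 1 + 1 + 1), ∏ i, (MvPolynomial.X k - MvPolynomial.C (a k i)) =
      (∏ i, (MvPolynomial.X 0 - MvPolynomial.C (a 0 i))) *
        ((∏ i, (MvPolynomial.X (Fin.succ 0) - MvPolynomial.C (a (Fin.succ 0) i))) *
          ∏ k : Fin (m + 1), ∏ i,
            (MvPolynomial.X k.succ.succ - MvPolynomial.C (a k.succ.succ i))) := by
    rw [Fin.prod_univ_succ, Fin.prod_univ_succ (n := m + 1)]
  unfold eqn coe0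
  rw [e, map_sub, map_one, map_sub, map_one]
  simp only [map_mul, map_prod, h0, h1, h2, Finset.prod_mul_distrib]
  rw [elim_C, hC]
  simp only [Finset.prod_const, Finset.card_univ, Fintype.card_fin, map_pow, map_neg, map_one]
  ring

theorem irreducible_elim (lam : K) (a : ∀ k, Fin (r k + 1) → K) (hl : lam ≠ 0)
    (ha : ∀ k, Function.Injective (a k)) :
    Irreducible (elim K (m + 1 + 1) (eqn lam a)) := by
  rw [← MulEquiv.irreducible_iff (MvPolynomial.finSuccEquiv K (m + 1)), finSucc_elim_eqn]
  have hmon1 : ∀ i, (Polynomial.X + Polynomial.C (∑ k, MvPolynomial.X k +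
          MvPolynomial.C (a 0 i)) : Polynomial (MvPolynomial (Fin (m + 1)) K)).Monic :=
    fun i => Polynomial.monic_X_add_C _
  have hmon2 : ∀ i, (Polynomial.X - Polynomial.C (MvPolynomial.C (a (Fin.succ 0) i)) :
      Polynomial (MvPolynomial (Fin (m + 1)) K)).Monic := fun i => Polynomial.monic_X_sub_C _
  have hp1 := Polynomial.monic_prod_of_monic Finset.univ _ fun i _ => hmon1 i
  have hp2 := Polynomial.monic_prod_of_monic Finset.univ _ fun i _ => hmon2 i
  obtain ⟨y, h1, h2, h3⟩ := coe0_props ((-1) ^ (r 0 + 1) * lam)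
    (fun k : Fin (m + 1 + 1) => a k.succ) (mul_ne_zero (pow_ne_zero _ (by norm_num)) hl)
    (fun k => ha k.succ)
  refine irr_sub_one (MvPolynomial.eval y) _ _ (hp1.mul hp2) ?_ h1 h2 h3
  have hd : (∏ i, (Polynomial.X - Polynomial.C (MvPolynomial.C (a (Fin.succ 0) i))) :
      Polynomial (MvPolynomial (Fin (m + 1)) K)).natDegree = r (Fin.succ 0) + 1 := by
    rw [Polynomial.natDegree_prod_of_monic _ _ fun i _ => hmon2 i]
    simp only [Polynomial.natDegree_X_sub_C, Finset.sum_const, Finset.card_univ,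
      Fintype.card_fin, smul_eq_mul, mul_one]
  rw [hp1.natDegree_mul hp2, hd]
  omega

theorem isDomain_SRing (lam : K) (a : ∀ k, Fin (r k + 1) → K) (hl : lam ≠ 0)
    (ha : ∀ k, Function.Injective (a k)) : IsDomain (SRing lam a) := by
  have hp := isPrime_span (m + 1 + 1) (eqn lam a) (irreducible_elim lam a hl ha)
  exact Ideal.Quotient.isDomain _

end Domain

end Pool.Agent.TH826.SX
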