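import Pool.Agent.TH826.MH.Smooth
import Pool.Agent.TH826.SX.Ring
set_option autoImplicit false

/-!
The varieties `λ ∏_k ∏_i (x_k - a_{k,i}) = 1`, `∑ x_k = 0` are smooth for large `λ`.
-/

namespace Pool.Agent.TH826.SX

open Polynomial

open Pool.Agent.TH826.MH (eqn qq eqn_eq pderiv_eqn eval_aeval)

section

variable {K : Type*} [Field K] {n : ℕ} {r : Fin n → ℕ}

theorem exists_delta (β : ∀ k, Fin (r k + 1) → ℂ) (hβ : ∀ k, Function.Injective (β k))
    (hgen : ∀ i : ∀ k, Fin (r k + 1), ∑ k, β k (i k) ≠ 0) :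
    ∃ δ : ℝ, 0 < δ ∧ (∀ k i j, i ≠ j → 2 * δ < ‖β k i - β k j‖) ∧
      ∀ i : ∀ k, Fin (r k + 1), n * δ < ‖∑ k, β k (i k)‖ := by
  have h1 : ∀ k i j, ∀ᶠ δ in nhdsWithin (0 : ℝ) (Set.Ioi 0), i ≠ j →
      2 * δ < ‖β k i - β k j‖ := by
    intro k i j
    by_cases hij : i = j
    · exact Filter.Eventually.of_forall fun ρ h => absurd hij h
    · have h1 : 0 < ‖β k i - β k j‖ := norm_pos_iff.2 (sub_ne_zero.2 fun e => hij (hβ k e))
      have hc : ContinuousAt (fun δ : ℝ => 2 * δ) 0 := by fun_prop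
      have h2 : ∀ᶠ δ in nhds (0 : ℝ), 2 * δ < ‖β k i - β k j‖ :=
        hc.eventually_lt continuousAt_const (by simpa using h1)
      filter_upwards [nhdsWithin_le_nhds h2] with ρ hρ _ using hρ
  have h2 : ∀ i : ∀ k, Fin (r k + 1), ∀ᶠ δ in nhdsWithin (0 : ℝ) (Set.Ioi 0),
      n * δ < ‖∑ k, β k (i k)‖ := by
    intro i
    have hc : ContinuousAt (fun δ : ℝ => n * δ) 0 := by fun_prop
    have h2 : ∀ᶠ δ in nhds (0 : ℝ), n * δ < ‖∑ k, β k (i k)‖ :=
      hc.eventually_lt continuousAt_const (by simpa using hgen i)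
    exact nhdsWithin_le_nhds h2
  have h3 := Filter.eventually_all.2 fun k => Filter.eventually_all.2 fun i =>
    Filter.eventually_all.2 fun j => h1 k i j
  have h4 := Filter.eventually_all.2 h2
  obtain ⟨δ, ⟨hδ1, hδ2⟩, hδ3⟩ := ((h3.and h4).and self_mem_nhdsWithin).exists
  exact ⟨δ, hδ3, hδ1, hδ2⟩

theorem eval_derivative_qq (σ : K →+* ℂ) {m : ℕ} (a : Fin m → K) (x : ℂ)
    (hx : ∀ i, x - σ (a i) ≠ 0) : (derivative (qq a)).eval₂ σ x =
      (∑ i, (x - σ (a i))⁻¹) * (qq a).eval₂ σ x := by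
  classical
  have hev : ∀ s : Finset (Fin m), (∏ i ∈ s, (X - C (a i))).eval₂ σ x =
      ∏ i ∈ s, (x - σ (a i)) := by
    intro s
    rw [eval₂_finsetProd]
    refine Finset.prod_congr rfl fun i _ => ?_
    simp
  unfold qq
  rw [derivative_prod_finset, eval₂_finsetSum, hev, Finset.sum_mul]
  refine Finset.sum_congr rfl fun i _ => ?_
  rw [eval₂_mul, hev, ← Finset.mul_prod_erase Finset.univ _ (Finset.mem_univ i)]
  have := hx i
  rw [← mul_assoc, inv_mul_cancel₀ this, one_mul]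
  simp

theorem exists_smooth (σ : K →+* ℂ) (a : ∀ k, Fin (r k + 1) → K)
    (ha : ∀ k, Function.Injective (a k))
    (hgen : ∀ i : ∀ k, Fin (r k + 1), ∑ k, a k (i k) ≠ 0) :
    ∃ c : ℝ, ∀ lam : K, c ≤ ‖σ lam‖ → ∀ x : Fin n → ℂ, ∑ k, x k = 0 →
      MvPolynomial.eval₂ σ x (eqn lam a) = 0 →
      ∃ k l, MvPolynomial.eval₂ σ x (MvPolynomial.pderiv k (eqn lam a)) ≠
        MvPolynomial.eval₂ σ x (MvPolynomial.pderiv l (eqn lam a)) := by
  classical
  set β : ∀ k, Fin (r k + 1) → ℂ := fun k i => σ (a k i) with hβdef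
  have hβ : ∀ k, Function.Injective (β k) := fun k => σ.injective.comp (ha k)
  have hgenβ : ∀ i : ∀ k, Fin (r k + 1), ∑ k, β k (i k) ≠ 0 := by
    intro i h
    apply hgen i
    apply σ.injective
    rw [map_sum, map_zero]
    exact h
  obtain ⟨δ, hδ, hδ1, hδ2⟩ := exists_delta β hβ hgenβ
  set N : ℝ := ∑ k, ((r k : ℝ) + 1) with hN
  have hNk : ∀ k, (r k : ℝ) + 1 ≤ N := fun k =>
    Finset.single_le_sum (f := fun k => (r k : ℝ) + 1) (fun k _ => by positivity)
      (Finset.mem_univ k)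
  have hN0 : 0 ≤ N := Finset.sum_nonneg fun k _ => by positivity
  set ε : ℝ := δ / (2 * N + 1) with hε
  have hε0 : 0 < ε := by positivity
  have hεδ : ε ≤ δ := by
    rw [hε, div_le_iff₀ (by positivity)]
    nlinarith
  set c0 : ℝ := ∏ k : Fin n, ∏ _i : Fin (r k + 1), ε with hc0
  have hc0pos : 0 < c0 := Finset.prod_pos fun k _ => Finset.prod_pos fun i _ => hε0
  refine ⟨1 / c0 + 1, fun lam hlam x hsum hx => ?_⟩
  -- the equation
  have heq : σ lam * ∏ k, ∏ i, (x k - β k i) = 1 := by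
    unfold eqn at hx
    rw [MvPolynomial.eval₂_sub, MvPolynomial.eval₂_mul, MvPolynomial.eval₂_C,
      MvPolynomial.eval₂_one, MvPolynomial.eval₂_prod, sub_eq_zero] at hx
    rw [← hx]
    congr 1
    refine Finset.prod_congr rfl fun k _ => ?_
    rw [MvPolynomial.eval₂_prod]
    refine Finset.prod_congr rfl fun i _ => ?_
    rw [MvPolynomial.eval₂_sub, MvPolynomial.eval₂_X, MvPolynomial.eval₂_C]
  have hne : σ lam ≠ 0 ∧ ∏ k, ∏ i, (x k - β k i) ≠ 0 := by
    rw [← mul_ne_zero_iff, heq]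
    exact one_ne_zero
  have hu : ∀ k i, x k - β k i ≠ 0 := fun k i =>
    (Finset.prod_ne_zero_iff.1 ((Finset.prod_ne_zero_iff.1 hne.2) k (Finset.mem_univ k))) i
      (Finset.mem_univ i)
  have hqq : ∀ l, (qq (a l)).eval₂ σ (x l) = ∏ i, (x l - β l i) := by
    intro l
    unfold qq
    rw [eval₂_finsetProd]
    refine Finset.prod_congr rfl fun i _ => ?_
    simp [hβdef]
  by_contra hcon
  push Not at hcon
  -- the logarithmic derivatives
  have hs : ∀ k, MvPolynomial.eval₂ σ x (MvPolynomial.pderiv k (eqn lam a)) =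
      ∑ i, (x k - β k i)⁻¹ := by
    intro k
    rw [pderiv_eqn, MvPolynomial.eval₂_mul, MvPolynomial.eval₂_mul, MvPolynomial.eval₂_C,
      eval_aeval, MvPolynomial.eval₂_prod, eval_derivative_qq σ _ _ (hu k)]
    simp only [eval_aeval, hqq]
    rw [mul_assoc, Finset.mul_prod_erase Finset.univ (fun l => ∏ i, (x l - β l i))
      (Finset.mem_univ k)]
    calc σ lam * ((∑ i, (x k - σ (a k i))⁻¹) * ∏ l, ∏ i, (x l - β l i)) =
        (∑ i, (x k - β k i)⁻¹) * (σ lam * ∏ l, ∏ i, (x l - β l i)) := by ring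
      _ = _ := by rw [heq, mul_one]
  have hs' : ∀ k l, ∑ i, (x k - β k i)⁻¹ = ∑ i, (x l - β l i)⁻¹ := by
    intro k l
    rw [← hs, ← hs]
    exact hcon k l
  -- a coordinate far from the roots
  obtain ⟨k0, hk0⟩ : ∃ k, ∀ i, δ ≤ ‖x k - β k i‖ := by
    by_contra h
    push Not at h
    choose I hI using h
    have h1 : ∑ k, (x k - β k (I k)) = - ∑ k, β k (I k) := by
      rw [Finset.sum_sub_distrib, hsum, zero_sub]
    have h2 : ‖∑ k, β k (I k)‖ ≤ n * δ := by
      rw [← norm_neg, ← h1]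
      refine (norm_sum_le _ _).trans ?_
      refine (Finset.sum_le_sum fun k _ => (hI k).le).trans ?_
      simp
    exact absurd (hδ2 I) (not_lt.2 h2)
  have hinv : ∀ k i, δ ≤ ‖x k - β k i‖ → ‖(x k - β k i)⁻¹‖ ≤ 1 / δ := by
    intro k i h
    rw [norm_inv, inv_eq_one_div]
    exact one_div_le_one_div_of_le hδ h
  have hκ : ‖∑ i, (x k0 - β k0 i)⁻¹‖ ≤ N / δ := by
    refine (norm_sum_le _ _).trans ?_
    refine (Finset.sum_le_sum fun i _ => hinv k0 i (hk0 i)).trans ?_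
    rw [Finset.sum_const, Finset.card_univ, Fintype.card_fin, nsmul_eq_mul, mul_one_div]
    push_cast
    exact div_le_div_of_nonneg_right (hNk k0) hδ.le
  have hfar : ∀ k i, ε ≤ ‖x k - β k i‖ := by
    intro k i
    by_contra hlt
    push Not at hlt
    have h1 : ∀ j ∈ Finset.univ.erase i, ‖(x k - β k j)⁻¹‖ ≤ 1 / δ := by
      intro j hj
      apply hinv
      have hij : i ≠ j := (Finset.ne_of_mem_erase hj).symm
      have h2 := hδ1 k i j hij
      have h3 : ‖β k i - β k j‖ ≤ ‖x k - β k j‖ + ‖x k - β k i‖ := by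
        have e : β k i - β k j = (x k - β k j) - (x k - β k i) := by ring
        rw [e]
        exact norm_sub_le _ _
      linarith
    have h2 : (x k - β k i)⁻¹ = ∑ j, (x k0 - β k0 j)⁻¹ -
        ∑ j ∈ Finset.univ.erase i, (x k - β k j)⁻¹ := by
      rw [← hs' k k0, ← Finset.add_sum_erase _ _ (Finset.mem_univ i)]
      ring
    have h3 : ‖∑ j ∈ Finset.univ.erase i, (x k - β k j)⁻¹‖ ≤ N / δ := by
      refine (norm_sum_le _ _).trans ?_
      refine (Finset.sum_le_sum h1).trans ?_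
      rw [Finset.sum_const, nsmul_eq_mul, mul_one_div]
      refine div_le_div_of_nonneg_right (le_trans ?_ (hNk k)) hδ.le
      have := Finset.card_le_univ (Finset.univ.erase i)
      rw [Fintype.card_fin] at this
      exact_mod_cast this
    have h4 : ‖(x k - β k i)⁻¹‖ ≤ 2 * N / δ := by
      rw [h2]
      refine (norm_sub_le _ _).trans ?_
      have : 2 * N / δ = N / δ + N / δ := by ring
      rw [this]
      exact add_le_add hκ h3
    have h5 : 0 < ‖x k - β k i‖ := norm_pos_iff.2 (hu k i)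
    rw [norm_inv, inv_le_iff_one_le_mul₀ h5] at h4
    have h6 : 2 * N / δ * ‖x k - β k i‖ ≤ 2 * N / δ * ε :=
      mul_le_mul_of_nonneg_left hlt.le (by positivity)
    have h7 : 2 * N / δ * ε < 1 := by
      rw [hε]
      rw [div_mul_div_comm, div_lt_one (by positivity)]
      nlinarith
    linarith
  have h5 : c0 ≤ ‖∏ k, ∏ i, (x k - β k i)‖ := by
    rw [norm_prod, hc0]
    refine Finset.prod_le_prod (fun k _ => Finset.prod_nonneg fun i _ => hε0.le) fun k _ => ?_
    rw [norm_prod]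
    exact Finset.prod_le_prod (fun i _ => hε0.le) fun i _ => hfar k i
  have h6 := congrArg norm heq
  rw [norm_mul, norm_one] at h6
  have h7 : 1 / c0 < ‖σ lam‖ := by linarith
  rw [div_lt_iff₀ hc0pos] at h7
  have h8 : ‖σ lam‖ * c0 ≤ ‖σ lam‖ * ‖∏ k, ∏ i, (x k - β k i)‖ :=
    mul_le_mul_of_nonneg_left h5 (norm_nonneg _)
  linarith

end

end Pool.Agent.TH826.SX
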