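import Pool.Agent.TH826.SX.Points
set_option autoImplicit false

/-!
Determinants.
-/

namespace Pool.Agent.TH826.SX

open Matrix

section near

variable {ι : Type*} [Fintype ι] [DecidableEq ι]

theorem det_near (A : ι → ι → ℂ) {ε : ℝ} (hε : 0 < ε) :
    ∃ δ : ℝ, 0 < δ ∧ ∀ M : ι → ι → ℂ, (∀ i j, ‖M i j - A i j‖ < δ) →
      ‖(Matrix.of M).det - (Matrix.of A).det‖ < ε := by
  have hc : Continuous fun M : ι → ι → ℂ => (Matrix.of M).det :=
    Continuous.matrix_det continuous_id
  obtain ⟨δ, hδ, h⟩ := Metric.continuous_iff.1 hc A ε hε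
  refine ⟨δ, hδ, fun M hM => ?_⟩
  have h2 : dist M A < δ := by
    rw [dist_pi_lt_iff hδ]
    intro i
    rw [dist_pi_lt_iff hδ]
    intro j
    rw [dist_eq_norm]
    exact hM i j
  have h3 := h M h2
  rwa [dist_eq_norm] at h3

theorem det_ne_zero_near (A : Matrix ι ι ℝ) (hA : A.det ≠ 0) :
    ∃ δ : ℝ, 0 < δ ∧ ∀ M : Matrix ι ι ℝ, (∀ i j, |M i j - A i j| < δ) → M.det ≠ 0 := by
  have hc : Continuous fun M : ι → ι → ℝ => (Matrix.of M).det :=
    Continuous.matrix_det continuous_id
  have hpos : 0 < |A.det| := abs_pos.2 hA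
  obtain ⟨δ, hδ, h⟩ := Metric.continuous_iff.1 hc (fun i j => A i j) |A.det| hpos
  refine ⟨δ, hδ, fun M hM h0 => ?_⟩
  have h2 : dist (fun i j => M i j) (fun i j => A i j) < δ := by
    rw [dist_pi_lt_iff hδ]
    intro i
    rw [dist_pi_lt_iff hδ]
    intro j
    rw [Real.dist_eq]
    exact hM i j
  have h3 := h _ h2
  have h4 : (Matrix.of fun i j => M i j).det = 0 := h0
  have h5 : (Matrix.of fun i j => A i j).det = A.det := rfl
  rw [h4, h5, Real.dist_eq, zero_sub, abs_neg] at h3
  exact lt_irrefl _ h3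

end near

section rows

variable {d : ℕ}

/-- the differences with the first row -/
noncomputable def dif (z : Fin (d + 2) → Fin (d + 1) → ℝ) : Matrix (Fin (d + 1)) (Fin (d + 1)) ℝ :=
  Matrix.of fun l => z l.succ - z 0

theorem det_dif_zero (z : Fin (d + 2) → Fin (d + 1) → ℝ) {k0 k1 : Fin (d + 2)} (h : k0 ≠ k1)
    (h0 : z k0 = 0) (h1 : z k1 = 0) : (dif z).det = 0 := by
  unfold dif
  rcases Fin.eq_zero_or_eq_succ k0 with hk0 | ⟨l0, hk0⟩
  · rcases Fin.eq_zero_or_eq_succ k1 with hk1 | ⟨l1, hk1⟩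
    · exact absurd (hk0.trans hk1.symm) h
    · refine Matrix.det_eq_zero_of_row_eq_zero l1 fun j => ?_
      rw [Matrix.of_apply, ← hk1, ← hk0, h0, h1, sub_zero, Pi.zero_apply]
  · rcases Fin.eq_zero_or_eq_succ k1 with hk1 | ⟨l1, hk1⟩
    · refine Matrix.det_eq_zero_of_row_eq_zero l0 fun j => ?_
      rw [Matrix.of_apply, ← hk1, ← hk0, h0, h1, sub_zero, Pi.zero_apply]
    · have hl : l0 ≠ l1 := by
        rintro rfl
        exact h (hk0.trans hk1.symm)
      refine Matrix.det_zero_of_row_eq hl ?_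
      funext j
      rw [Matrix.of_apply, Matrix.of_apply, ← hk1, ← hk0, h0, h1]

theorem vrow_indep (w : Fin (d + 1) → ℝ) (h : ∑ j, w j • vrow d j = 0) : w = 0 := by
  have h0 := congrFun h 0
  rw [Fin.sum_univ_succ] at h0
  simp only [vrow, Fin.cons_zero, Fin.cons_succ, Pi.add_apply, Finset.sum_apply, Pi.smul_apply,
    smul_eq_mul, mul_one, Pi.zero_apply] at h0
  have e0 : ∀ j : Fin d, (Pi.single j.succ (1 : ℝ) : Fin (d + 1) → ℝ) 0 = 0 := fun j =>
    Pi.single_eq_of_ne (Fin.succ_ne_zero j).symm _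
  simp only [e0, mul_zero, Finset.sum_const_zero, add_zero] at h0
  funext j
  refine Fin.cases h0 (fun j => ?_) j
  have h1 := congrFun h j.succ
  rw [Fin.sum_univ_succ] at h1
  simp only [vrow, Fin.cons_zero, Fin.cons_succ, Pi.add_apply, Finset.sum_apply, Pi.smul_apply,
    smul_eq_mul, Pi.zero_apply] at h1
  rw [h0, zero_mul, zero_add, Finset.sum_eq_single j] at h1
  · simpa using h1
  · intro l _ hl
    have : j.succ ≠ l.succ := fun e => hl (Fin.succ_injective _ e).symm
    rw [Pi.single_eq_of_ne this, mul_zero]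
  · intro h
    exact absurd (Finset.mem_univ j) h

theorem det_dif_row (k0 : Fin (d + 2)) : (dif (row k0)).det ≠ 0 := by
  intro h
  obtain ⟨v, hv, h0⟩ := Matrix.exists_vecMul_eq_zero_iff.2 h
  apply hv
  set c : Fin (d + 2) → ℝ := Fin.cons (-∑ l, v l) v with hc
  have hsum : ∑ k, c k = 0 := by
    rw [Fin.sum_univ_succ]
    simp only [hc, Fin.cons_zero, Fin.cons_succ]
    ring
  have hrow : ∑ k, c k • row k0 k = 0 := by
    rw [Fin.sum_univ_succ]
    simp only [hc, Fin.cons_zero, Fin.cons_succ]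
    have h1 : ∑ l, v l • (row k0 l.succ - row k0 0) = 0 := by
      funext j
      have := congrFun h0 j
      rw [Matrix.vecMul, dotProduct] at this
      simpa [dif, Finset.sum_apply] using this
    simp only [smul_sub, Finset.sum_sub_distrib, ← Finset.sum_smul] at h1
    rw [neg_smul, neg_add_eq_sub]
    exact h1
  rw [Fin.sum_univ_succAbove _ k0, row_same, smul_zero, zero_add] at hrow
  simp only [row_succAbove] at hrow
  have hw := vrow_indep _ hrow
  have hc0 : c k0 = 0 := by
    rw [Fin.sum_univ_succAbove _ k0, Finset.sum_eq_zero fun j _ => congrFun hw j, add_zero] at hsum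
    exact hsum
  have hall : ∀ k, c k = 0 := by
    intro k
    rcases Fin.eq_self_or_eq_succAbove k0 k with hk | ⟨j, hk⟩
    · rw [hk]; exact hc0
    · rw [hk]; exact congrFun hw j
  funext l
  have := hall l.succ
  simpa [hc] using this

end rows

section tri

variable {d : ℕ} {r : Fin (d + 2) → ℕ}

/-- the indices with an entry equal to zero -/
abbrev Ix (r : Fin (d + 2) → ℕ) : Type := {i : ∀ k, Fin (r k + 1) // ∃ k, i k = 0}

theorem exists_first (J : Ix r) : ∃ k, J.1 k = 0 ∧ ∀ l, J.1 l = 0 → k ≤ l := by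
  obtain ⟨k, hk⟩ := J.2
  obtain ⟨m, hm, hmin⟩ := Finset.exists_min_image (Finset.univ.filter fun k => J.1 k = 0) id
    ⟨k, by simpa using hk⟩
  exact ⟨m, by simpa using hm, fun l hl => hmin l (by simpa using hl)⟩

/-- the first class with entry zero -/
noncomputable def fst0 (J : Ix r) : Fin (d + 2) := (exists_first J).choose

theorem fst0_eq (J : Ix r) : J.1 (fst0 J) = 0 := (exists_first J).choose_spec.1

theorem fst0_le (J : Ix r) {l : Fin (d + 2)} (h : J.1 l = 0) : fst0 J ≤ l :=
  (exists_first J).choose_spec.2 l h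

theorem fst0_lt {J I : Ix r} (hne : I ≠ J) (h : ∀ k, k ≠ fst0 J → I.1 k = J.1 k) :
    fst0 J < fst0 I := by
  have h1 : I.1 (fst0 J) ≠ 0 := by
    intro h0
    apply hne
    refine Subtype.ext (funext fun k => ?_)
    by_cases hk : k = fst0 J
    · rw [hk, h0, fst0_eq]
    · exact h k hk
  have h2 : fst0 I ≠ fst0 J := by
    intro e
    apply h1
    rw [← e]
    exact fst0_eq I
  have h3 : J.1 (fst0 I) = 0 := by
    rw [← h _ h2]
    exact fst0_eq I
  exact lt_of_le_of_ne (fst0_le J h3) h2.symm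

/-- the leading coefficients -/
noncomputable def lead (r : Fin (d + 2) → ℕ) : Matrix (Ix r) (Ix r) ℝ :=
  Matrix.of fun J I => (2 * Real.pi) ^ d * (dif fun k => rowJ (fst0 J) J.1 k (I.1 k)).det

theorem det_lead : (lead r).det ≠ 0 := by
  classical
  intro h
  obtain ⟨v, hv, h0⟩ := Matrix.exists_mulVec_eq_zero_iff.2 h
  obtain ⟨J1, hJ1⟩ := Function.ne_iff.1 hv
  obtain ⟨J, hJ, hmax⟩ := Finset.exists_max_image (Finset.univ.filter fun J => v J ≠ 0) fst0
    ⟨J1, by simpa using hJ1⟩
  have hvJ : v J ≠ 0 := by simpa using hJ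
  have h1 := congrFun h0 J
  rw [Matrix.mulVec, dotProduct, Pi.zero_apply, Finset.sum_eq_single J] at h1
  · have h2 : lead r J J ≠ 0 := by
      unfold lead
      rw [Matrix.of_apply]
      refine mul_ne_zero (by positivity) ?_
      have e : (fun k => rowJ (fst0 J) J.1 k (J.1 k)) = row (fst0 J) := by
        funext k
        unfold rowJ
        rw [if_pos rfl]
      rw [e]
      exact det_dif_row _
    exact (mul_ne_zero h2 hvJ) h1
  · intro I _ hIJ
    by_cases hk : ∀ k, k ≠ fst0 J → I.1 k = J.1 k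
    · have hlt := fst0_lt hIJ hk
      have hvI : v I = 0 := by
        by_contra hne
        exact absurd (hmax I (by simpa using hne)) (not_le.2 hlt)
      rw [hvI, mul_zero]
    · push Not at hk
      obtain ⟨k, hk1, hk2⟩ := hk
      have h2 : lead r J I = 0 := by
        unfold lead
        rw [Matrix.of_apply, det_dif_zero _ hk1.symm, mul_zero]
        · unfold rowJ
          rw [row_same, ite_self]
        · unfold rowJ
          rw [if_neg hk2]
      rw [h2, zero_mul]
  · intro h
    exact absurd (Finset.mem_univ J) h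

end tri

end Pool.Agent.TH826.SX
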