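import Pool.Agent.TH826.MH.Tori
import Pool.Agent.TH826.SX.Ring
import Pool.Agent.TH826.SX.Det
set_option autoImplicit false

/-!
The regulators of the symbols on the tori, for large `λ`.
-/

namespace Pool.Agent.TH826.SX

open MeasureTheory Set

open Pool.Agent.TH826.MK

open Pool.Agent.TH826.MH (eqn eval_eqn)

section Ev

variable {K : Type*} [Field K] {n d : ℕ} {r : Fin n → ℕ} {σ : K →+* ℂ} {lam : K}
  {a : ∀ k, Fin (r k + 1) → K}

/-- the complex points of the variety -/
structure Pt (σ : K →+* ℂ) (lam : K) (a : ∀ k, Fin (r k + 1) → K) (x : Fin n → ℂ) : Prop where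
  eq : σ lam * ∏ k, ∏ i, (x k - σ (a k i)) = 1
  sum : ∑ k, x k = 0

/-- evaluation of the regular functions at a complex point -/
noncomputable def evS {x : Fin n → ℂ} (hx : Pt σ lam a x) : SRing lam a →+* ℂ :=
  Ideal.Quotient.lift (Ideal.span {eqn lam a, ∑ k, MvPolynomial.X k})
    (MvPolynomial.eval₂Hom σ x) (by
    intro p hp
    have hle : Ideal.span {eqn lam a, ∑ k, MvPolynomial.X k} ≤
        RingHom.ker (MvPolynomial.eval₂Hom σ x) := by
      rw [Ideal.span_le]
      rintro q (rfl | rfl)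
      · show MvPolynomial.eval₂Hom σ x (eqn lam a) = 0
        rw [eval_eqn, hx.eq, sub_self]
      · show MvPolynomial.eval₂Hom σ x (∑ k, MvPolynomial.X k) = 0
        rw [map_sum]
        simp only [MvPolynomial.coe_eval₂Hom, MvPolynomial.eval₂_X]
        exact hx.sum
    exact hle hp)

theorem evS_spol {x : Fin n → ℂ} (hx : Pt σ lam a x)
    (p : MvPolynomial (Fin n) K) : evS hx (spol lam a p) = MvPolynomial.eval₂Hom σ x p :=
  Ideal.Quotient.lift_mk _ _ _

theorem evS_sx {x : Fin n → ℂ} (hx : Pt σ lam a x) (k : Fin n)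
    (c : K) : evS hx (sx lam a k c) = x k - σ c := by
  unfold sx
  rw [evS_spol]
  simp

theorem evS_congr {x y : Fin n → ℂ} (hx : Pt σ lam a x) (hy : Pt σ lam a y) (h : x = y) :
    evS hx = evS hy := by
  subst h
  rfl

theorem contDiff_evS {x : (Fin d → ℝ) → (Fin n → ℂ)} (hc : ContDiff ℝ 2 x)
    (hx : ∀ θ, Pt σ lam a (x θ)) (h : SRing lam a) :
    ContDiff ℝ 2 fun θ => evS (hx θ) h := by
  have hxk : ∀ k, ContDiff ℝ 2 fun θ => x θ k := fun k => contDiff_pi.1 hc k
  obtain ⟨p, hp⟩ := Ideal.Quotient.mk_surjective h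
  have hmv : ∀ p : MvPolynomial (Fin n) K,
      ContDiff ℝ 2 fun θ => MvPolynomial.eval₂Hom σ (x θ) p := by
    intro p
    induction p using MvPolynomial.induction_on with
    | C c => simpa using contDiff_const
    | add p q hp hq => simpa using hp.add hq
    | mul_X p k hp => simpa using hp.mul (hxk k)
  have e : (fun θ => evS (hx θ) h) = fun θ => MvPolynomial.eval₂Hom σ (x θ) p := by
    funext θ
    rw [← hp]
    exact evS_spol (hx θ) p
  rw [e]
  exact hmv p

/-- a torus in the variety -/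
noncomputable def mkS (x : (Fin d → ℝ) → (Fin n → ℂ)) (hc : ContDiff ℝ 2 x)
    (hp : ∀ θ i, x (θ + Pi.single i 1) = x θ)
    (hx : ∀ θ, Pt σ lam a (x θ)) : Torus (SRing lam a) d where
  e θ := evS (hx θ)
  smooth h := contDiff_evS hc hx h
  periodic θ i := evS_congr _ _ (hp θ i)

theorem mkS_su (x : (Fin d → ℝ) → (Fin n → ℂ)) (hc : ContDiff ℝ 2 x)
    (hp : ∀ θ i, x (θ + Pi.single i 1) = x θ)
    (hx : ∀ θ, Pt σ lam a (x θ)) (k : Fin n) (i : Fin (r k + 1)) :
    (mkS x hc hp hx).fn (su lam a k i : SRing lam a) = fun θ => x θ k - σ (a k i) := by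
  funext θ
  exact evS_sx (hx θ) k _

end Ev

section est

variable {d : ℕ}

/-- the integral of a function close to a constant -/
theorem abs_integral_sub_le {f : (Fin (d + 1) → ℝ) → ℝ} (hf : Continuous f) {c ε : ℝ}
    (h : ∀ y ∈ Icc (0 : Fin (d + 1) → ℝ) 1, |f y - c| ≤ ε) :
    |(∫ y in Icc (0 : Fin (d + 1) → ℝ) 1, f y) - c| ≤ ε := by
  have hvol : (volume : Measure (Fin (d + 1) → ℝ)) (Icc 0 1) = 1 := by
    rw [Real.volume_Icc_pi]
    simp
  have h1 : ∫ y in Icc (0 : Fin (d + 1) → ℝ) 1, (f y - c) =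
      (∫ y in Icc (0 : Fin (d + 1) → ℝ) 1, f y) - c := by
    rw [integral_sub]
    · rw [setIntegral_const, Measure.real, hvol]
      simp
    · exact hf.continuousOn.integrableOn_compact isCompact_Icc
    · exact continuous_const.continuousOn.integrableOn_compact isCompact_Icc
  have h4 := norm_setIntegral_le_of_norm_le_const (μ := (volume : Measure (Fin (d + 1) → ℝ)))
    (s := Icc 0 1) (f := fun y => f y - c) (C := ε) (by rw [hvol]; exact ENNReal.one_lt_top)
    fun y hy => by rw [Real.norm_eq_abs]; exact h y hy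
  rw [Measure.real, hvol, h1] at h4
  simpa using h4

/-- The regulator integral is close to the determinant of the orders. -/
theorem pairing_close (R : Matrix (Fin (d + 1)) (Fin (d + 1)) ℝ) {ε : ℝ} (hε : 0 < ε) :
    ∃ δ : ℝ, 0 < δ ∧ ∀ (g : Fin (d + 1) → (Fin d → ℝ) → ℂ) (s : ℝ), s ≠ 0 → (∀ l, Good (g l)) →
      (∀ l θ, |Real.log ‖g l θ‖ / s - R l 0| < δ) →
      (∀ l j θ, ‖lw (g l) j θ - 2 * Real.pi * Complex.I * R l j.succ‖ < δ) →
      |pairing g / s - (2 * Real.pi) ^ d * R.det| ≤ ε := by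
  set N0 : Fin (d + 1) → Fin (d + 1) → ℂ := fun l => Fin.cons ((R l 0 : ℝ) : ℂ)
    fun j => 2 * Real.pi * Complex.I * R l j.succ with hN0
  obtain ⟨δ, hδ, hdet⟩ := det_near N0 hε
  refine ⟨δ / 2, by linarith, fun g s hs hg h1 h2 => ?_⟩
  set N : (Fin (d + 1) → ℝ) → Fin (d + 1) → Fin (d + 1) → ℂ := fun y l =>
    Fin.cons (((Real.log ‖g l (tl d y)‖ / s : ℝ)) : ℂ) fun j => grow (g l) y j.succ with hN
  have hsc : (s : ℂ) ≠ 0 := by exact_mod_cast hs
  -- the determinant of the orders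
  have hdet0 : (Matrix.of N0).det = (2 * Real.pi * Complex.I) ^ d * (R.det : ℂ) := by
    have e : Matrix.of N0 = Matrix.of fun l j => (Fin.cons 1 fun _ => 2 * Real.pi * Complex.I :
        Fin (d + 1) → ℂ) j * (R.map (fun x : ℝ => (x : ℂ))) l j := by
      ext l j
      rw [Matrix.of_apply, Matrix.of_apply, Matrix.map_apply]
      refine Fin.cases ?_ (fun j => ?_) j
      · simp [hN0]
      · simp [hN0]
    rw [e, Matrix.det_mul_row, Fin.prod_univ_succ]
    simp only [Fin.cons_zero, Fin.cons_succ, one_mul, Finset.prod_const, Finset.card_univ,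
      Fintype.card_fin]
    congr 1
    exact (RingHom.map_det Complex.ofRealHom R).symm
  have hmain0 : ((-Complex.I) ^ d * (Matrix.of N0).det).re = (2 * Real.pi) ^ d * R.det := by
    rw [hdet0, ← mul_assoc, ← mul_pow]
    have e : -Complex.I * (2 * Real.pi * Complex.I) = ((2 * Real.pi : ℝ) : ℂ) := by
      push_cast
      linear_combination (-(2 * (Real.pi : ℂ))) * Complex.I_mul_I
    rw [e, ← Complex.ofReal_pow, ← Complex.ofReal_mul, Complex.ofReal_re]
  -- the integrand
  have hint : ∀ y, integrand g y = s * ((-Complex.I) ^ d * (Matrix.of (N y)).det).re := by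
    intro y
    unfold integrand
    have e : (Matrix.of fun l => grow (g l) y) = Matrix.of fun l j =>
        (Fin.cons (s : ℂ) fun _ => 1 : Fin (d + 1) → ℂ) j * (Matrix.of (N y)) l j := by
      ext l j
      rw [Matrix.of_apply, Matrix.of_apply, Matrix.of_apply]
      refine Fin.cases ?_ (fun j => ?_) j
      · simp only [hN, Fin.cons_zero, grow_zero]
        push_cast
        field_simp
      · simp only [hN, Fin.cons_succ, one_mul]
    rw [e, Matrix.det_mul_row, Fin.prod_univ_succ]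
    simp only [Fin.cons_zero, Fin.cons_succ, Finset.prod_const_one, mul_one]
    have e2 : (-Complex.I) ^ d * (s * (Matrix.of (N y)).det) =
        s * ((-Complex.I) ^ d * (Matrix.of (N y)).det) := by ring
    rw [e2, Complex.re_ofReal_mul]
  have hclose : ∀ y ∈ Icc (0 : Fin (d + 1) → ℝ) 1, ∀ l j, ‖N y l j - N0 l j‖ < δ := by
    intro y hy l j
    refine Fin.cases ?_ (fun j => ?_) j
    · simp only [hN, hN0, Fin.cons_zero]
      rw [← Complex.ofReal_sub, Complex.norm_real, Real.norm_eq_abs]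
      exact (h1 l _).trans (by linarith)
    · simp only [hN, hN0, Fin.cons_succ, grow_succ]
      set w : ℂ := lw (g l) j (tl d y) with hw
      set q : ℂ := w - 2 * Real.pi * Complex.I * R l j.succ with hq
      have hq2 : ‖q‖ < δ / 2 := h2 l j _
      have hwq : w = q + 2 * Real.pi * Complex.I * R l j.succ := by rw [hq]; ring
      have hre : w.re = q.re := by
        rw [hwq]
        simp
      have him : w.im = q.im + 2 * Real.pi * R l j.succ := by
        rw [hwq]
        simp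
      rw [hre, him]
      have e : (((y 0 * q.re : ℝ)) : ℂ) + Complex.I * ((q.im + 2 * Real.pi * R l j.succ : ℝ) : ℂ) -
          2 * Real.pi * Complex.I * R l j.succ = ((y 0 * q.re : ℝ) : ℂ) +
            Complex.I * ((q.im : ℝ) : ℂ) := by
        push_cast
        ring
      rw [e]
      refine (norm_add_le _ _).trans_lt ?_
      rw [norm_mul, Complex.norm_I, one_mul, Complex.norm_real, Complex.norm_real,
        Real.norm_eq_abs, Real.norm_eq_abs, abs_mul]
      have h3 : |y 0| ≤ 1 := by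
        rw [abs_of_nonneg (hy.1 0)]
        exact hy.2 0
      have h4 := Complex.abs_re_le_norm q
      have h5 := Complex.abs_im_le_norm q
      have h6 : |y 0| * |q.re| ≤ 1 * ‖q‖ := mul_le_mul h3 h4 (abs_nonneg _) zero_le_one
      linarith
  have hcont : Continuous fun y => integrand g y / s := (continuous_integrand hg).div_const s
  have hp : pairing g / s = ∫ y in Icc (0 : Fin (d + 1) → ℝ) 1, integrand g y / s := by
    unfold pairing
    rw [integral_div]
  rw [hp, ← hmain0]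
  refine abs_integral_sub_le hcont fun y hy => ?_
  rw [hint, mul_div_cancel_left₀ _ hs, ← Complex.sub_re, ← mul_sub]
  refine (Complex.abs_re_le_norm _).trans ?_
  rw [norm_mul, norm_pow, norm_neg, Complex.norm_I, one_pow, one_mul]
  exact (hdet (N y) (hclose y hy)).le

end est

section main

variable {K : Type*} [Field K] {d : ℕ} {r : Fin (d + 2) → ℕ}

theorem exists_torus (σ : K →+* ℂ) (a : ∀ k, Fin (r k + 1) → K)
    (ha : ∀ k, Function.Injective (a k))
    (hgen : ∀ i : ∀ k, Fin (r k + 1), ∑ k, a k (i k) ≠ 0) (k0 : Fin (d + 2))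
    (J : ∀ k, Fin (r k + 1)) {ε : ℝ} (hε : 0 < ε) :
    ∃ Λ : ℝ, 1 < Λ ∧ ∀ lam : K, Λ ≤ ‖σ lam‖ → ∃ Γ : Torus (SRing lam a) d,
      (∀ θ x, Γ.e θ (spol lam a (MvPolynomial.C x)) = σ x) ∧
      ∀ i : ∀ k, Fin (r k + 1), |Γ.reg (symb (sent lam a i)) / (-Real.log ‖σ lam‖) -
        (2 * Real.pi) ^ d * (dif fun k => rowJ k0 J k (i k)).det| ≤ ε := by
  classical
  set β : ∀ k, Fin (r k + 1) → ℂ := fun k i => σ (a k i) with hβdef
  have hβ : ∀ k, Function.Injective (β k) := fun k => σ.injective.comp (ha k)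
  have hgenβ : ∀ i : ∀ k, Fin (r k + 1), ∑ k, β k (i k) ≠ 0 := by
    intro i h
    apply hgen i
    apply σ.injective
    rw [map_sum, map_zero]
    exact h
  choose δ hδ hclose using fun i : ∀ k, Fin (r k + 1) =>
    pairing_close (dif fun k => rowJ k0 J k (i k)) hε
  obtain ⟨i0, -, hi0⟩ := Finset.exists_min_image Finset.univ δ
    ⟨fun k => (0 : Fin (r k + 1)), Finset.mem_univ _⟩
  set δ0 : ℝ := δ i0 / 3 with hδ0
  have hδ0pos : 0 < δ0 := by
    have := hδ i0
    rw [hδ0]
    linarith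
  have hδle : ∀ i, 2 * δ0 < δ i := by
    intro i
    have h1 := hi0 i (Finset.mem_univ i)
    have h2 := hδ i0
    rw [hδ0]
    linarith
  obtain ⟨η0, hη0, hX⟩ := exists_points k0 J hβ hgenβ hδ0pos
  refine ⟨1 / η0 + 2, by
    have : 0 < 1 / η0 := by positivity
    linarith, fun lam hlam => ?_⟩
  have hinvpos : 0 < 1 / η0 := by positivity
  have hln : 0 < ‖σ lam‖ := by linarith
  have hl0 : σ lam ≠ 0 := norm_pos_iff.1 hln
  have hη : ‖(σ lam)⁻¹‖ < η0 := by
    rw [norm_inv, inv_lt_comm₀ hln hη0, ← one_div]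
    linarith
  obtain ⟨hlog, X, hXc, hXp, hXs, hXe, hXest⟩ := hX _ (inv_ne_zero hl0) hη
  have hPt : ∀ θ, Pt σ lam a (X θ) := fun θ =>
    ⟨by rw [hXe θ]; exact mul_inv_cancel₀ hl0, hXs θ⟩
  refine ⟨mkS X hXc hXp hPt, fun θ x => ?_, fun i => ?_⟩
  · show evS (hPt θ) (spol lam a (MvPolynomial.C x)) = σ x
    rw [evS_spol]
    simp
  rw [Torus.reg_symb]
  have hlogeq : Real.log ‖(σ lam)⁻¹‖ = -Real.log ‖σ lam‖ := by rw [norm_inv, Real.log_inv]
  rw [hlogeq] at hlog hXest
  set Γ := mkS X hXc hXp hPt with hΓ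
  have hgood : ∀ k j, Good (Γ.fn (su lam a k j : SRing lam a)) := fun k j => Γ.good _
  have hsu : ∀ k j, Γ.fn (su lam a k j : SRing lam a) = fun θ => X θ k - β k j := fun k j =>
    mkS_su X hXc hXp hPt k j
  have hgoodX : ∀ k j, Good fun θ => X θ k - β k j := fun k j => by
    rw [← hsu]
    exact hgood k j
  have hmul : ∀ l : Fin (d + 1), (fun θ => Γ.fn (sent lam a i l : SRing lam a) θ *
      (X θ 0 - β 0 (i 0))) = fun θ => X θ l.succ - β l.succ (i l.succ) := by
    intro l
    rw [← hsu l.succ]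
    funext θ
    have h0 := congrFun (hsu 0 (i 0)) θ
    rw [← h0]
    unfold Torus.fn
    rw [← map_mul, ← Units.val_mul]
    congr 2
    exact div_mul_cancel _ _
  have hgoodE : ∀ l, Good (Γ.fn (sent lam a i l : SRing lam a)) := fun l => Γ.good _
  refine hclose i _ _ hlog hgoodE (fun l θ => ?_) (fun l j θ => ?_)
  · have h1 := (hXest l.succ (i l.succ) θ).1
    have h2 := (hXest 0 (i 0) θ).1
    have h3 : Real.log ‖Γ.fn (sent lam a i l : SRing lam a) θ * (X θ 0 - β 0 (i 0))‖ =
        Real.log ‖X θ l.succ - β l.succ (i l.succ)‖ :=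
      congrArg (fun z : ℂ => Real.log ‖z‖) (congrFun (hmul l) θ)
    rw [norm_mul, Real.log_mul (norm_ne_zero_iff.2 ((hgoodE l).ne_zero θ))
      (norm_ne_zero_iff.2 ((hgoodX 0 (i 0)).ne_zero θ))] at h3
    have h4 : Real.log ‖Γ.fn (sent lam a i l : SRing lam a) θ‖ =
        Real.log ‖X θ l.succ - β l.succ (i l.succ)‖ - Real.log ‖X θ 0 - β 0 (i 0)‖ := by
      linarith
    rw [h4, sub_div]
    have e : (dif fun k => rowJ k0 J k (i k)) l 0 =
        rowJ k0 J l.succ (i l.succ) 0 - rowJ k0 J 0 (i 0) 0 := rfl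
    rw [e]
    refine lt_of_le_of_lt ?_ (hδle i)
    have h5 := abs_le.1 h1
    have h6 := abs_le.1 h2
    rw [abs_le]
    constructor <;> linarith [h5.1, h5.2, h6.1, h6.2]
  · have h1 := (hXest l.succ (i l.succ) θ).2 j
    have h2 := (hXest 0 (i 0) θ).2 j
    have h3 := lw_mul (hgoodE l) (hgoodX 0 (i 0)) j θ
    rw [hmul l] at h3
    have h4 : lw (Γ.fn (sent lam a i l : SRing lam a)) j θ =
        lw (fun θ => X θ l.succ - β l.succ (i l.succ)) j θ -
        lw (fun θ => X θ 0 - β 0 (i 0)) j θ := by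
      rw [h3]
      ring
    have e : (dif fun k => rowJ k0 J k (i k)) l j.succ =
        rowJ k0 J l.succ (i l.succ) j.succ - rowJ k0 J 0 (i 0) j.succ := rfl
    rw [h4, e]
    refine lt_of_le_of_lt ?_ (hδle i)
    have e2 : lw (fun θ => X θ l.succ - β l.succ (i l.succ)) j θ -
        lw (fun θ => X θ 0 - β 0 (i 0)) j θ - 2 * Real.pi * Complex.I *
          ((rowJ k0 J l.succ (i l.succ) j.succ - rowJ k0 J 0 (i 0) j.succ : ℝ) : ℂ) =
        (lw (fun θ => X θ l.succ - β l.succ (i l.succ)) j θ -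
          2 * Real.pi * Complex.I * rowJ k0 J l.succ (i l.succ) j.succ) -
        (lw (fun θ => X θ 0 - β 0 (i 0)) j θ -
          2 * Real.pi * Complex.I * rowJ k0 J 0 (i 0) j.succ) := by
      push_cast
      ring
    rw [e2]
    refine (norm_sub_le _ _).trans ?_
    linarith

theorem exists_tori (σ : K →+* ℂ) (a : ∀ k, Fin (r k + 1) → K)
    (ha : ∀ k, Function.Injective (a k))
    (hgen : ∀ i : ∀ k, Fin (r k + 1), ∑ k, a k (i k) ≠ 0) :
    ∃ c : ℝ, 1 ≤ c ∧ ∀ lam : K, c ≤ ‖σ lam‖ →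
      ∃ Γ : Ix r → Torus (SRing lam a) d,
        (∀ t θ x, (Γ t).e θ (spol lam a (MvPolynomial.C x)) = σ x) ∧
        (Matrix.of fun t i : Ix r => (Γ t).reg (symb (sent lam a i.1))).det ≠ 0 := by
  classical
  obtain ⟨δ, hδ, hdet⟩ := det_ne_zero_near (lead r) det_lead
  choose Λ hΛ1 hΛ using fun J : Ix r =>
    exists_torus σ a ha hgen (fst0 J) J.1 (ε := δ / 2) (by linarith)
  set c : ℝ := ∑ J, |Λ J| + 2 with hc
  have hsum : 0 ≤ ∑ J, |Λ J| := Finset.sum_nonneg fun J _ => abs_nonneg _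
  have hΛc : ∀ J, Λ J ≤ c := by
    intro J
    have h1 := Finset.single_le_sum (f := fun J => |Λ J|) (fun J _ => abs_nonneg _)
      (Finset.mem_univ J)
    have h2 := le_abs_self (Λ J)
    have h3 : |Λ J| ≤ ∑ J, |Λ J| := h1
    linarith
  refine ⟨c, by linarith, fun lam hlam => ?_⟩
  choose Γ hΓ1 hΓ2 using fun J => hΛ J lam ((hΛc J).trans hlam)
  refine ⟨Γ, hΓ1, ?_⟩
  have hs : -Real.log ‖σ lam‖ ≠ 0 := by
    have : 0 < Real.log ‖σ lam‖ := Real.log_pos (by linarith)
    linarith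
  set s : ℝ := -Real.log ‖σ lam‖ with hsdef
  have h1 : (Matrix.of fun t i : Ix r => (Γ t).reg (symb (sent lam a i.1)) / s).det ≠ 0 := by
    refine hdet _ fun J I => ?_
    rw [Matrix.of_apply]
    unfold lead
    rw [Matrix.of_apply]
    exact (hΓ2 J I.1).trans_lt (by linarith)
  have h2 : (Matrix.of fun t i : Ix r => (Γ t).reg (symb (sent lam a i.1))) =
      s • (Matrix.of fun t i : Ix r => (Γ t).reg (symb (sent lam a i.1)) / s) := by
    ext J I
    rw [Matrix.smul_apply, Matrix.of_apply, Matrix.of_apply, smul_eq_mul]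
    field_simp
  rw [h2, Matrix.det_smul]
  exact mul_ne_zero (pow_ne_zero _ hs) h1

end main

end Pool.Agent.TH826.SX
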