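import Pool.Agent.TH826.MK.Eval
set_option autoImplicit false

/-!
Local inverses and small tori in the space of the parameters.
-/

namespace Pool.Agent.TH826.SX

open Filter Topology

open Pool.Agent.TH826.MK

section loc

variable {d : ℕ}

theorem exists_solution (Q : (Fin d → ℂ) × ℂ → ℂ) (hQ : ContDiff ℂ 2 Q) (h0 : Q 0 ≠ 0) :
    ∃ Y : (Fin d → ℂ) × ℂ → ℂ, ContDiffAt ℂ 2 Y 0 ∧ Y 0 = 0 ∧
      ∀ᶠ ζ in 𝓝 (0 : (Fin d → ℂ) × ℂ), Y ζ * Q (ζ.1, Y ζ) = ζ.2 := by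
  set Φ : (Fin d → ℂ) × ℂ → (Fin d → ℂ) × ℂ := fun u => (u.1, u.2 * Q u) with hΦ
  have hΦc : ContDiffAt ℂ 2 Φ 0 := (contDiff_fst.prodMk (contDiff_snd.mul hQ)).contDiffAt
  have hΦ0 : Φ 0 = 0 := by simp [hΦ]
  let e : ((Fin d → ℂ) × ℂ) ≃L[ℂ] ((Fin d → ℂ) × ℂ) :=
    (ContinuousLinearEquiv.refl ℂ (Fin d → ℂ)).prodCongr
      (ContinuousLinearEquiv.unitsEquivAut ℂ (Units.mk0 (Q 0) h0))
  have hΦd : HasFDerivAt Φ (e : ((Fin d → ℂ) × ℂ) →L[ℂ] ((Fin d → ℂ) × ℂ)) 0 := by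
    have h1 := (hasFDerivAt_snd (𝕜 := ℂ) (p := (0 : (Fin d → ℂ) × ℂ))).mul
      ((hQ.differentiable (by norm_num)) 0).hasFDerivAt
    refine (hasFDerivAt_fst.prodMk h1).congr_fderiv ?_
    refine ContinuousLinearMap.ext fun u => ?_
    refine Prod.ext ?_ ?_
    · simp [e]
    · simp [e]
      ring
  have hn : (2 : WithTop ℕ∞) ≠ 0 := by norm_num
  set Ψ := hΦc.localInverse hΦd hn with hΨ
  have hΨc : ContDiffAt ℂ 2 Ψ 0 := by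
    have := hΦc.to_localInverse hΦd hn
    rwa [hΦ0] at this
  have hΨ0 : Ψ 0 = 0 := by
    have := hΦc.localInverse_apply_image hΦd hn
    rwa [hΦ0] at this
  have hright : ∀ᶠ ζ in 𝓝 (0 : (Fin d → ℂ) × ℂ), Φ (Ψ ζ) = ζ := by
    have := (hΦc.hasStrictFDerivAt' hΦd hn).eventually_right_inverse
    rwa [hΦ0] at this
  refine ⟨fun ζ => (Ψ ζ).2, hΨc.snd, by show (Ψ 0).2 = 0; rw [hΨ0]; rfl, ?_⟩
  filter_upwards [hright] with ζ hζ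
  have h0 : ((Ψ ζ).1, (Ψ ζ).2 * Q (Ψ ζ)) = ζ := hζ
  have h1 : (Ψ ζ).1 = ζ.1 := (Prod.ext_iff.1 h0).1
  have h2 : (Ψ ζ).2 * Q (Ψ ζ) = ζ.2 := (Prod.ext_iff.1 h0).2
  rw [← h1]
  exact h2

theorem exists_nice {E : Type*} [NormedAddCommGroup E] [NormedSpace ℂ E] {φ : E → ℂ}
    (h : ContDiffAt ℂ 2 φ 0) (h0 : φ 0 ≠ 0) :
    ∃ C : ℝ, ∀ᶠ ζ in 𝓝 (0 : E), ContDiffAt ℂ 2 φ ζ ∧ φ ζ ≠ 0 ∧ |Real.log ‖φ ζ‖| ≤ C ∧
      ‖fderiv ℂ φ ζ‖ / ‖φ ζ‖ ≤ C := by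
  have c1 : ContinuousAt (fun w => |Real.log ‖φ w‖|) 0 :=
    ((h.continuousAt.norm).log (norm_ne_zero_iff.2 h0)).abs
  have hd : ContinuousAt (fderiv ℂ φ) 0 := (h.fderiv_right (m := 1) (by norm_num)).continuousAt
  have c2 : ContinuousAt (fun w => ‖fderiv ℂ φ w‖ / ‖φ w‖) 0 :=
    hd.norm.div h.continuousAt.norm (norm_ne_zero_iff.2 h0)
  refine ⟨max (|Real.log ‖φ 0‖| + 1) (‖fderiv ℂ φ 0‖ / ‖φ 0‖ + 1), ?_⟩
  have e1 := c1.eventually_lt continuousAt_const (lt_add_one (|Real.log ‖φ 0‖|))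
  have e2 := c2.eventually_lt continuousAt_const (lt_add_one (‖fderiv ℂ φ 0‖ / ‖φ 0‖))
  have e3 : ∀ᶠ ζ in 𝓝 (0 : E), ContDiffAt ℂ 2 φ ζ := h.eventually (by norm_num)
  filter_upwards [e3, h.continuousAt.eventually_ne h0, e1, e2] with w a1 a2 a3 a4
  exact ⟨a1, a2, a3.le.trans (le_max_left _ _), a4.le.trans (le_max_right _ _)⟩

/-- the torus `|z_k| = ρ`, `ω ∏ z_k = η` -/
noncomputable def zt (ρ : ℝ) (η : ℂ) (θ : Fin d → ℝ) : (Fin d → ℂ) × ℂ :=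
  (fun k => circ ρ (θ k), η / ∏ k, circ ρ (θ k))

variable {ρ : ℝ} {η : ℂ}

theorem circ_ne_zero (hρ : 0 < ρ) (s : ℝ) : circ ρ s ≠ 0 := by
  intro h
  have h1 := norm_circ hρ.le s
  rw [h, norm_zero] at h1
  exact hρ.ne h1

theorem good_circ (hρ : 0 < ρ) (k : Fin d) : Good fun θ : Fin d → ℝ => circ ρ (θ k) :=
  ⟨(contDiff_circ ρ).comp (contDiff_apply ℝ ℝ k), fun θ => circ_ne_zero hρ _⟩

theorem lw_circ (hρ : 0 < ρ) (k j : Fin d) (θ : Fin d → ℝ) :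
    lw (fun θ : Fin d → ℝ => circ ρ (θ k)) j θ = if j = k then 2 * Real.pi * Complex.I else 0 := by
  split_ifs with h
  · subst h
    have h1 := lw_vf_self (contDiff_circ ρ) j θ
    rw [h1, (hasDerivAt_circ ρ (θ j)).deriv, mul_div_assoc, div_self (circ_ne_zero hρ _), mul_one]
  · exact lw_vf_ne (contDiff_circ ρ) h θ

theorem good_prod_circ (hρ : 0 < ρ) : Good fun θ : Fin d → ℝ => ∏ k, circ ρ (θ k) :=
  good_prod Finset.univ fun k => good_circ hρ k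

theorem good_om (hρ : 0 < ρ) (hη : η ≠ 0) : Good fun θ : Fin d → ℝ => η / ∏ k, circ ρ (θ k) := by
  refine ⟨?_, fun θ => div_ne_zero hη ((good_prod_circ hρ).ne_zero θ)⟩
  have e : (fun θ : Fin d → ℝ => η / ∏ k, circ ρ (θ k)) =
      fun θ => η * (∏ k, circ ρ (θ k))⁻¹ := by
    funext θ
    rw [div_eq_mul_inv]
  rw [e]
  exact contDiff_const.mul ((good_prod_circ hρ).smooth.inv (good_prod_circ hρ).ne_zero)

theorem lw_prod_circ (hρ : 0 < ρ) (j : Fin d) (θ : Fin d → ℝ) :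
    lw (fun θ : Fin d → ℝ => ∏ k, circ ρ (θ k)) j θ = 2 * Real.pi * Complex.I := by
  classical
  rw [lw_prod Finset.univ (fun k => good_circ hρ k)]
  simp only [lw_circ hρ]
  rw [Finset.sum_ite_eq Finset.univ j]
  simp

theorem lw_om (hρ : 0 < ρ) (hη : η ≠ 0) (j : Fin d) (θ : Fin d → ℝ) :
    lw (fun θ : Fin d → ℝ => η / ∏ k, circ ρ (θ k)) j θ = -(2 * Real.pi * Complex.I) := by
  have h1 := lw_mul (good_om (d := d) hρ hη) (good_prod_circ hρ) j θ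
  have e : (fun θ : Fin d → ℝ => (η / ∏ k, circ ρ (θ k)) * ∏ k, circ ρ (θ k)) = fun _ => η := by
    funext θ
    exact div_mul_cancel₀ _ ((good_prod_circ hρ).ne_zero θ)
  rw [e, lw_const, lw_prod_circ hρ] at h1
  linear_combination -h1

theorem norm_om (hρ : 0 < ρ) (θ : Fin d → ℝ) :
    ‖η / ∏ k, circ ρ (θ k)‖ = ‖η‖ / ρ ^ d := by
  rw [norm_div, norm_prod]
  simp only [norm_circ hρ.le]
  rw [Finset.prod_const, Finset.card_univ, Fintype.card_fin]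

theorem norm_om_le (hρ : 0 < ρ) (hη : ‖η‖ ≤ ρ ^ (d + 1)) (θ : Fin d → ℝ) :
    ‖η / ∏ k, circ ρ (θ k)‖ ≤ ρ := by
  rw [norm_om hρ, div_le_iff₀ (by positivity)]
  rwa [pow_succ, mul_comm] at hη

theorem contDiff_zt (hρ : 0 < ρ) (hη : η ≠ 0) : ContDiff ℝ 2 (zt (d := d) ρ η) :=
  (contDiff_pi.2 fun k => (good_circ hρ k).smooth).prodMk (good_om hρ hη).smooth

theorem norm_zt_le (hρ : 0 < ρ) (hη : ‖η‖ ≤ ρ ^ (d + 1)) (θ : Fin d → ℝ) :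
    ‖zt ρ η θ‖ ≤ ρ := by
  rw [norm_prod_le_iff]
  refine ⟨?_, norm_om_le hρ hη θ⟩
  rw [pi_norm_le_iff_of_nonneg hρ.le]
  intro k
  exact (norm_circ hρ.le _).le

theorem zt_add_single (θ : Fin d → ℝ) (i : Fin d) :
    zt ρ η (θ + Pi.single i 1) = zt ρ η θ := by
  have hcp : ∀ k : Fin d, circ ρ ((θ + Pi.single i 1 : Fin d → ℝ) k) = circ ρ (θ k) := by
    intro k
    exact congrFun (tpt_add_single (fun _ => ρ) θ i) k
  unfold zt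
  simp only [hcp]

theorem norm_fderiv_zt (hρ : 0 < ρ) (hη0 : η ≠ 0) (hη : ‖η‖ ≤ ρ ^ (d + 1)) (θ : Fin d → ℝ)
    (j : Fin d) : ‖fderiv ℝ (zt ρ η) θ (Pi.single j 1)‖ ≤ 2 * Real.pi * ρ := by
  have hd : HasFDerivAt (zt ρ η) (fderiv ℝ (zt ρ η) θ) θ :=
    (((contDiff_zt hρ hη0).differentiable (by norm_num)) θ).hasFDerivAt
  have hpi : ‖2 * (Real.pi : ℂ) * Complex.I‖ = 2 * Real.pi := by
    rw [norm_mul, norm_mul, Complex.norm_I, Complex.norm_real, Complex.norm_ofNat, mul_one,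
      Real.norm_eq_abs, abs_of_pos Real.pi_pos]
  have hpos : 0 ≤ 2 * Real.pi * ρ := by positivity
  rw [norm_prod_le_iff]
  constructor
  · rw [pi_norm_le_iff_of_nonneg hpos]
    intro k
    have h1 := (((ContinuousLinearMap.proj (R := ℝ) (φ := fun _ : Fin d => ℂ) k).comp
      (ContinuousLinearMap.fst ℝ (Fin d → ℂ) ℂ)).hasFDerivAt).comp θ hd
    have h2 := h1.fderiv
    have h3 : (fderiv ℝ (zt ρ η) θ (Pi.single j 1)).1 k =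
        fderiv ℝ (fun θ : Fin d → ℝ => circ ρ (θ k)) θ (Pi.single j 1) :=
      (DFunLike.congr_fun h2 (Pi.single j 1)).symm
    have h4 : fderiv ℝ (fun θ : Fin d → ℝ => circ ρ (θ k)) θ (Pi.single j 1) =
        lw (fun θ : Fin d → ℝ => circ ρ (θ k)) j θ * circ ρ (θ k) := by
      unfold lw
      rw [div_mul_cancel₀ _ (circ_ne_zero hρ _)]
    rw [h3, h4, lw_circ hρ]
    split_ifs
    · rw [norm_mul, hpi, norm_circ hρ.le]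
    · rw [zero_mul, norm_zero]
      exact hpos
  · have h1 := ((ContinuousLinearMap.snd ℝ (Fin d → ℂ) ℂ).hasFDerivAt).comp θ hd
    have h2 := h1.fderiv
    have h3 : (fderiv ℝ (zt ρ η) θ (Pi.single j 1)).2 =
        fderiv ℝ (fun θ : Fin d → ℝ => η / ∏ k, circ ρ (θ k)) θ (Pi.single j 1) :=
      (DFunLike.congr_fun h2 (Pi.single j 1)).symm
    have h4 : fderiv ℝ (fun θ : Fin d → ℝ => η / ∏ k, circ ρ (θ k)) θ (Pi.single j 1) =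
        lw (fun θ : Fin d → ℝ => η / ∏ k, circ ρ (θ k)) j θ * (η / ∏ k, circ ρ (θ k)) := by
      unfold lw
      rw [div_mul_cancel₀ _ ((good_om hρ hη0).ne_zero θ)]
    rw [h3, h4, lw_om hρ hη0, norm_mul, norm_neg, hpi]
    exact mul_le_mul_of_nonneg_left (norm_om_le hρ hη θ) (by positivity)

variable {δ C : ℝ} {φ : (Fin d → ℂ) × ℂ → ℂ}

/-- a function of class `C²` near the origin, with bounded logarithm and logarithmic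
derivative -/
def Nice (δ C : ℝ) (φ : (Fin d → ℂ) × ℂ → ℂ) : Prop :=
  ∀ ζ, ‖ζ‖ < δ → ContDiffAt ℂ 2 φ ζ ∧ φ ζ ≠ 0 ∧ |Real.log ‖φ ζ‖| ≤ C ∧
    ‖fderiv ℂ φ ζ‖ / ‖φ ζ‖ ≤ C

theorem good_nice (hρ : 0 < ρ) (hρδ : ρ < δ) (hη0 : η ≠ 0) (hη : ‖η‖ ≤ ρ ^ (d + 1))
    (hφ : Nice δ C φ) : Good fun θ => φ (zt ρ η θ) := by
  have hz : ∀ θ : Fin d → ℝ, ‖zt ρ η θ‖ < δ := fun θ => (norm_zt_le hρ hη θ).trans_lt hρδ
  refine ⟨?_, fun θ => (hφ _ (hz θ)).2.1⟩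
  rw [contDiff_iff_contDiffAt]
  intro θ
  exact (((hφ _ (hz θ)).1).restrict_scalars ℝ).comp θ (contDiff_zt hρ hη0).contDiffAt

theorem lw_nice (hρ : 0 < ρ) (hρδ : ρ < δ) (hη0 : η ≠ 0) (hη : ‖η‖ ≤ ρ ^ (d + 1))
    (hφ : Nice δ C φ) (j : Fin d) (θ : Fin d → ℝ) :
    ‖lw (fun θ => φ (zt ρ η θ)) j θ‖ ≤ C * (2 * Real.pi * ρ) := by
  have hz : ‖zt ρ η θ‖ < δ := (norm_zt_le hρ hη θ).trans_lt hρδ
  have hd : HasFDerivAt (zt ρ η) (fderiv ℝ (zt ρ η) θ) θ :=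
    (((contDiff_zt hρ hη0).differentiable (by norm_num)) θ).hasFDerivAt
  obtain ⟨h1, h2, -, h3⟩ := hφ _ hz
  have h4 : HasFDerivAt φ ((fderiv ℂ φ (zt ρ η θ)).restrictScalars ℝ) (zt ρ η θ) :=
    ((h1.differentiableAt (by norm_num)).hasFDerivAt).restrictScalars ℝ
  have h5 := (h4.comp θ hd).fderiv
  have h6 : fderiv ℝ (fun θ => φ (zt ρ η θ)) θ (Pi.single j 1) =
      fderiv ℂ φ (zt ρ η θ) (fderiv ℝ (zt ρ η) θ (Pi.single j 1)) :=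
    DFunLike.congr_fun h5 (Pi.single j 1)
  unfold lw
  rw [h6, norm_div]
  have hpos : 0 < ‖φ (zt ρ η θ)‖ := norm_pos_iff.2 h2
  have h7 : ‖fderiv ℂ φ (zt ρ η θ) (fderiv ℝ (zt ρ η) θ (Pi.single j 1))‖ ≤
      ‖fderiv ℂ φ (zt ρ η θ)‖ * (2 * Real.pi * ρ) :=
    (ContinuousLinearMap.le_opNorm _ _).trans
      (mul_le_mul_of_nonneg_left (norm_fderiv_zt hρ hη0 hη θ j) (norm_nonneg _))
  calc _ ≤ ‖fderiv ℂ φ (zt ρ η θ)‖ * (2 * Real.pi * ρ) / ‖φ (zt ρ η θ)‖ :=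
        div_le_div_of_nonneg_right h7 hpos.le
    _ = ‖fderiv ℂ φ (zt ρ η θ)‖ / ‖φ (zt ρ η θ)‖ * (2 * Real.pi * ρ) := by ring
    _ ≤ _ := mul_le_mul_of_nonneg_right h3 (by positivity)

end loc

end Pool.Agent.TH826.SX
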