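import Pool.Agent.TH826.SX.Local
set_option autoImplicit false

/-!
Tori in the complex varieties `∏_k ∏_i (x_k - β_{k,i}) = η`, `∑ x_k = 0`.
-/

namespace Pool.Agent.TH826.SX

open Filter Topology

open Pool.Agent.TH826.MK

section pts

variable {d : ℕ} {r : Fin (d + 2) → ℕ} (β : ∀ k, Fin (r k + 1) → ℂ) (k0 : Fin (d + 2))
  (J : ∀ k, Fin (r k + 1))

/-- the vertex -/
noncomputable def bJ (j : Fin (d + 1)) : ℂ := β (k0.succAbove j) (J (k0.succAbove j))

/-- the point with the coordinates `u` at the vertex -/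
noncomputable def xx (u : (Fin d → ℂ) × ℂ) : Fin (d + 2) → ℂ :=
  Fin.insertNth k0 (-∑ j, (bJ β k0 J j + (Fin.cons u.2 u.1 : Fin (d + 1) → ℂ) j))
    (fun j => bJ β k0 J j + (Fin.cons u.2 u.1 : Fin (d + 1) → ℂ) j)

theorem xx_same (u : (Fin d → ℂ) × ℂ) : xx β k0 J u k0 =
    -∑ j, (bJ β k0 J j + (Fin.cons u.2 u.1 : Fin (d + 1) → ℂ) j) := by
  unfold xx
  rw [Fin.insertNth_apply_same]

theorem xx_succAbove (u : (Fin d → ℂ) × ℂ) (j : Fin (d + 1)) :
    xx β k0 J u (k0.succAbove j) = bJ β k0 J j + (Fin.cons u.2 u.1 : Fin (d + 1) → ℂ) j := by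
  unfold xx
  rw [Fin.insertNth_apply_succAbove]

theorem sum_xx (u : (Fin d → ℂ) × ℂ) : ∑ k, xx β k0 J u k = 0 := by
  rw [Fin.sum_univ_succAbove _ k0, xx_same]
  simp only [xx_succAbove]
  ring

theorem contDiff_cons (j : Fin (d + 1)) :
    ContDiff ℂ 2 fun u : (Fin d → ℂ) × ℂ => (Fin.cons u.2 u.1 : Fin (d + 1) → ℂ) j := by
  refine Fin.cases ?_ (fun j => ?_) j
  · simpa using contDiff_snd
  · have h : ContDiff ℂ 2 fun u : (Fin d → ℂ) × ℂ => u.1 j :=
      (contDiff_apply ℂ ℂ j).comp contDiff_fst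
    simpa using h

theorem contDiff_xx : ContDiff ℂ 2 (xx β k0 J) := by
  refine contDiff_pi.2 fun k => ?_
  rcases Fin.eq_self_or_eq_succAbove k0 k with h | ⟨j, h⟩
  · subst h
    simp only [xx_same]
    exact (ContDiff.sum fun j _ => contDiff_const.add (contDiff_cons j)).neg
  · subst h
    simp only [xx_succAbove]
    exact contDiff_const.add (contDiff_cons j)

theorem contDiff_xx_apply (k : Fin (d + 2)) : ContDiff ℂ 2 fun u => xx β k0 J u k :=
  contDiff_pi.1 (contDiff_xx β k0 J) k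

/-- the product of the factors that do not vanish at the vertex -/
noncomputable def QQ (u : (Fin d → ℂ) × ℂ) : ℂ :=
  (∏ i, (xx β k0 J u k0 - β k0 i)) * ∏ j : Fin (d + 1),
    ∏ i ∈ Finset.univ.erase (J (k0.succAbove j)),
      (xx β k0 J u (k0.succAbove j) - β (k0.succAbove j) i)

theorem contDiff_QQ : ContDiff ℂ 2 (QQ β k0 J) := by
  unfold QQ
  refine (contDiff_prod fun i _ => (contDiff_xx_apply β k0 J k0).sub contDiff_const).mul
    (contDiff_prod fun j _ => contDiff_prod fun i _ =>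
      (contDiff_xx_apply β k0 J _).sub contDiff_const)

theorem prod_xx (u : (Fin d → ℂ) × ℂ) : ∏ k, ∏ i, (xx β k0 J u k - β k i) =
    (∏ k, u.1 k) * (u.2 * QQ β k0 J u) := by
  have h : ∀ j : Fin (d + 1), ∏ i, (xx β k0 J u (k0.succAbove j) - β (k0.succAbove j) i) =
      (Fin.cons u.2 u.1 : Fin (d + 1) → ℂ) j * ∏ i ∈ Finset.univ.erase (J (k0.succAbove j)),
        (xx β k0 J u (k0.succAbove j) - β (k0.succAbove j) i) := by
    intro j
    rw [← Finset.mul_prod_erase _ _ (Finset.mem_univ (J (k0.succAbove j)))]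
    congr 1
    rw [xx_succAbove]
    unfold bJ
    ring
  rw [Fin.prod_univ_succAbove _ k0]
  simp only [h]
  rw [Finset.prod_mul_distrib, Fin.prod_univ_succ (fun j : Fin (d + 1) =>
    (Fin.cons u.2 u.1 : Fin (d + 1) → ℂ) j)]
  simp only [Fin.cons_zero, Fin.cons_succ]
  unfold QQ
  ring

variable {β} {J} in
theorem xx_zero_ne (hβ : ∀ k, Function.Injective (β k))
    (hgen : ∀ i : ∀ k, Fin (r k + 1), ∑ k, β k (i k) ≠ 0) (k : Fin (d + 2)) (i : Fin (r k + 1))
    (h : k = k0 ∨ i ≠ J k) : xx β k0 J 0 k - β k i ≠ 0 := by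
  rcases Fin.eq_self_or_eq_succAbove k0 k with hk | ⟨j, hk⟩
  · subst hk
    intro h0
    rw [xx_same] at h0
    have hc : ∀ j : Fin (d + 1),
        (Fin.cons (0 : (Fin d → ℂ) × ℂ).2 (0 : (Fin d → ℂ) × ℂ).1 : Fin (d + 1) → ℂ) j = 0 := by
      intro j
      refine Fin.cases ?_ (fun j => ?_) j
      · rfl
      · rfl
    simp only [hc, add_zero] at h0
    refine hgen (Function.update J k i) ?_
    rw [Fin.sum_univ_succAbove _ k, Function.update_self]
    have h1 : ∀ j, β (k.succAbove j) (Function.update J k i (k.succAbove j)) = bJ β k J j := by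
      intro j
      rw [Function.update_of_ne (Fin.succAbove_ne k j)]
      rfl
    simp only [h1]
    linear_combination -h0
  · subst hk
    have h1 : i ≠ J (k0.succAbove j) := h.resolve_left (Fin.succAbove_ne k0 j)
    rw [xx_succAbove]
    have hc : (Fin.cons (0 : (Fin d → ℂ) × ℂ).2 (0 : (Fin d → ℂ) × ℂ).1 : Fin (d + 1) → ℂ) j
        = 0 := by
      refine Fin.cases ?_ (fun j => ?_) j
      · rfl
      · rfl
    rw [hc, add_zero]
    unfold bJ
    rw [sub_ne_zero]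
    intro e
    exact h1 (hβ _ e).symm

variable {β} {J} in
theorem QQ_zero_ne (hβ : ∀ k, Function.Injective (β k))
    (hgen : ∀ i : ∀ k, Fin (r k + 1), ∑ k, β k (i k) ≠ 0) : QQ β k0 J 0 ≠ 0 := by
  unfold QQ
  refine mul_ne_zero ?_ ?_
  · exact Finset.prod_ne_zero_iff.2 fun i _ => xx_zero_ne k0 hβ hgen k0 i (Or.inl rfl)
  · exact Finset.prod_ne_zero_iff.2 fun j _ => Finset.prod_ne_zero_iff.2 fun i hi =>
      xx_zero_ne k0 hβ hgen _ i (Or.inr (Finset.ne_of_mem_erase hi))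

/-- the orders (in `η` and in the angles) of the coordinates at the vertex -/
noncomputable def vrow (d : ℕ) : Fin (d + 1) → Fin (d + 1) → ℝ :=
  Fin.cons (Fin.cons 1 fun _ => -1) fun j => Pi.single j.succ 1

/-- the orders of the coordinates at the vertex without the class `k0` -/
noncomputable def row (k0 : Fin (d + 2)) : Fin (d + 2) → Fin (d + 1) → ℝ :=
  Fin.insertNth k0 0 (vrow d)

/-- the orders of the functions `x_k - β_{k,i}` -/
noncomputable def rowJ (k : Fin (d + 2)) (i : Fin (r k + 1)) : Fin (d + 1) → ℝ :=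
  if i = J k then row k0 k else 0

/-- the monomials -/
noncomputable def mon (k0 : Fin (d + 2)) (ζ : (Fin d → ℂ) × ℂ) : Fin (d + 2) → ℂ :=
  Fin.insertNth k0 1 (Fin.cons ζ.2 ζ.1)

variable {β} {J} in
theorem exists_factor (hβ : ∀ k, Function.Injective (β k))
    (hgen : ∀ i : ∀ k, Fin (r k + 1), ∑ k, β k (i k) ≠ 0) {Y : (Fin d → ℂ) × ℂ → ℂ}
    (hY : ContDiffAt ℂ 2 Y 0) (hY0 : Y 0 = 0)
    (hYQ : ∀ᶠ ζ in 𝓝 (0 : (Fin d → ℂ) × ℂ), Y ζ * QQ β k0 J (ζ.1, Y ζ) = ζ.2)
    (k : Fin (d + 2)) (i : Fin (r k + 1)) :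
    ∃ φ : (Fin d → ℂ) × ℂ → ℂ, ContDiffAt ℂ 2 φ 0 ∧ φ 0 ≠ 0 ∧
      ∀ᶠ ζ in 𝓝 (0 : (Fin d → ℂ) × ℂ), xx β k0 J (ζ.1, Y ζ) k - β k i =
        (if i = J k then mon k0 ζ k else 1) * φ ζ := by
  set U : (Fin d → ℂ) × ℂ → (Fin d → ℂ) × ℂ := fun ζ => (ζ.1, Y ζ) with hU
  have hU0 : U 0 = 0 := by
    show ((0 : (Fin d → ℂ) × ℂ).1, Y 0) = 0
    rw [hY0]
    rfl
  have hUc : ContDiffAt ℂ 2 U 0 := contDiffAt_fst.prodMk hY
  have hc : ContDiffAt ℂ 2 (fun ζ => xx β k0 J (U ζ) k - β k i) 0 := by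
    refine ContDiffAt.sub ?_ contDiffAt_const
    exact ((contDiff_xx_apply β k0 J k).contDiffAt).comp (0 : (Fin d → ℂ) × ℂ) hUc
  have hQc : ContDiffAt ℂ 2 (fun ζ => QQ β k0 J (U ζ)) 0 :=
    ((contDiff_QQ β k0 J).contDiffAt).comp (0 : (Fin d → ℂ) × ℂ) hUc
  have hQ0 : QQ β k0 J (U 0) ≠ 0 := by
    rw [hU0]
    exact QQ_zero_ne k0 hβ hgen
  by_cases h : k = k0 ∨ i ≠ J k
  · refine ⟨fun ζ => xx β k0 J (U ζ) k - β k i, hc, ?_, Eventually.of_forall fun ζ => ?_⟩
    · show xx β k0 J (U 0) k - β k i ≠ 0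
      rw [hU0]
      exact xx_zero_ne k0 hβ hgen k i h
    · have h1 : (if i = J k then mon k0 ζ k else 1) = 1 := by
        rcases h with h | h
        · subst h
          unfold mon
          rw [Fin.insertNth_apply_same, ite_self]
        · rw [if_neg h]
      rw [h1, one_mul]
  · push Not at h
    obtain ⟨j, rfl⟩ : ∃ j, k = k0.succAbove j :=
      (Fin.eq_self_or_eq_succAbove k0 k).resolve_left h.1
    have hi : i = J (k0.succAbove j) := h.2
    have hm : ∀ ζ : (Fin d → ℂ) × ℂ, mon k0 ζ (k0.succAbove j) =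
        (Fin.cons ζ.2 ζ.1 : Fin (d + 1) → ℂ) j := by
      intro ζ
      unfold mon
      rw [Fin.insertNth_apply_succAbove]
    have hx : ∀ ζ, xx β k0 J (ζ.1, Y ζ) (k0.succAbove j) - β (k0.succAbove j) i =
        (Fin.cons (Y ζ) ζ.1 : Fin (d + 1) → ℂ) j := by
      intro ζ
      rw [xx_succAbove, hi]
      unfold bJ
      ring
    simp only [if_pos hi, hm, hx]
    refine Fin.cases ?_ (fun j => ?_) j
    · refine ⟨fun ζ => (QQ β k0 J (U ζ))⁻¹, hQc.inv hQ0, inv_ne_zero hQ0, ?_⟩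
      filter_upwards [hYQ, hQc.continuousAt.eventually_ne hQ0] with ζ h1 h2
      simp only [Fin.cons_zero]
      rw [eq_mul_inv_iff_mul_eq₀ h2]
      exact h1
    · refine ⟨fun _ => 1, contDiffAt_const, one_ne_zero, Eventually.of_forall fun ζ => ?_⟩
      simp only [Fin.cons_succ, mul_one]

section mono

variable {ρ : ℝ} {η : ℂ}

theorem mon_same (ζ : (Fin d → ℂ) × ℂ) : mon k0 ζ k0 = 1 := by
  unfold mon
  rw [Fin.insertNth_apply_same]

theorem mon_succAbove (ζ : (Fin d → ℂ) × ℂ) (j : Fin (d + 1)) :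
    mon k0 ζ (k0.succAbove j) = (Fin.cons ζ.2 ζ.1 : Fin (d + 1) → ℂ) j := by
  unfold mon
  rw [Fin.insertNth_apply_succAbove]

theorem row_same : row k0 k0 = 0 := by
  unfold row
  rw [Fin.insertNth_apply_same]

theorem row_succAbove (j : Fin (d + 1)) : row k0 (k0.succAbove j) = vrow d j := by
  unfold row
  rw [Fin.insertNth_apply_succAbove]

theorem mono_props (hρ : 0 < ρ) (hη : η ≠ 0) (k : Fin (d + 2)) :
    Good (fun θ : Fin d → ℝ => mon k0 (zt ρ η θ) k) ∧
    (∀ j θ, lw (fun θ : Fin d → ℝ => mon k0 (zt ρ η θ) k) j θ =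
      2 * Real.pi * Complex.I * row k0 k j.succ) ∧
    ∀ θ : Fin d → ℝ, |Real.log ‖mon k0 (zt ρ η θ) k‖ - row k0 k 0 * Real.log ‖η‖| ≤
      (d + 1) * |Real.log ρ| := by
  have hd1 : (0 : ℝ) ≤ (d + 1) * |Real.log ρ| := by positivity
  rcases Fin.eq_self_or_eq_succAbove k0 k with h | ⟨j, h⟩
  · subst h
    simp only [mon_same, row_same]
    refine ⟨good_const one_ne_zero, fun j θ => ?_, fun θ => ?_⟩
    · rw [lw_const]
      simp
    · simpa using hd1
  · subst h
    simp only [mon_succAbove, row_succAbove]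
    refine Fin.cases ?_ (fun j => ?_) j
    · simp only [Fin.cons_zero, vrow]
      refine ⟨good_om hρ hη, fun j θ => ?_, fun θ => ?_⟩
      · have h := lw_om (d := d) hρ hη j θ
        rw [Fin.cons_succ]
        show lw (fun θ : Fin d → ℝ => η / ∏ k, circ ρ (θ k)) j θ = _
        rw [h]
        push_cast
        ring
      · show |Real.log ‖η / ∏ k, circ ρ (θ k)‖ - 1 * Real.log ‖η‖| ≤ _
        rw [norm_om hρ, Real.log_div (norm_ne_zero_iff.2 hη) (by positivity), Real.log_pow,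
          one_mul]
        have e : Real.log ‖η‖ - d * Real.log ρ - Real.log ‖η‖ = -(d * Real.log ρ) := by ring
        rw [e, abs_neg, abs_mul, Nat.abs_cast]
        exact mul_le_mul_of_nonneg_right (by linarith) (abs_nonneg _)
    · simp only [Fin.cons_succ, vrow]
      refine ⟨good_circ hρ j, fun l θ => ?_, fun θ => ?_⟩
      · show lw (fun θ : Fin d → ℝ => circ ρ (θ j)) l θ = _
        rw [lw_circ hρ]
        by_cases h : l = j
        · subst h
          simp
        · have h' : l.succ ≠ j.succ := fun e => h (Fin.succ_injective _ e)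
          rw [if_neg h, Pi.single_eq_of_ne h']
          simp
      · show |Real.log ‖circ ρ (θ j)‖ - _| ≤ _
        rw [norm_circ hρ.le, Pi.single_eq_of_ne (Fin.succ_ne_zero j).symm, zero_mul, sub_zero]
        have : (1 : ℝ) ≤ d + 1 := by
          have : (0 : ℝ) ≤ d := Nat.cast_nonneg d
          linarith
        calc |Real.log ρ| = 1 * |Real.log ρ| := (one_mul _).symm
          _ ≤ _ := mul_le_mul_of_nonneg_right this (abs_nonneg _)

end mono

variable {β} in
/-- The tori at the vertices. -/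
theorem exists_points (hβ : ∀ k, Function.Injective (β k))
    (hgen : ∀ i : ∀ k, Fin (r k + 1), ∑ k, β k (i k) ≠ 0) {ε : ℝ} (hε : 0 < ε) :
    ∃ η0 : ℝ, 0 < η0 ∧ ∀ η : ℂ, η ≠ 0 → ‖η‖ < η0 → Real.log ‖η‖ ≠ 0 ∧
      ∃ X : (Fin d → ℝ) → (Fin (d + 2) → ℂ), ContDiff ℝ 2 X ∧
        (∀ θ i, X (θ + Pi.single i 1) = X θ) ∧ (∀ θ, ∑ k, X θ k = 0) ∧
        (∀ θ, ∏ k, ∏ i, (X θ k - β k i) = η) ∧
        ∀ k i θ, |Real.log ‖X θ k - β k i‖ / Real.log ‖η‖ - rowJ k0 J k i 0| ≤ ε ∧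
          ∀ j, ‖lw (fun θ => X θ k - β k i) j θ -
            2 * Real.pi * Complex.I * rowJ k0 J k i j.succ‖ ≤ ε := by
  obtain ⟨Y, hY, hY0, hYQ⟩ := exists_solution (QQ β k0 J) (contDiff_QQ β k0 J)
    (QQ_zero_ne k0 hβ hgen)
  choose φ hφ1 hφ2 hφ3 using exists_factor k0 hβ hgen hY hY0 hYQ
  choose C hC using fun k i => exists_nice (hφ1 k i) (hφ2 k i)
  have hall := (hY.eventually (by norm_num)).and (hYQ.and
    ((eventually_all.2 fun k => eventually_all.2 fun i => hφ3 k i).and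
    (eventually_all.2 fun k => eventually_all.2 fun i => hC k i)))
  obtain ⟨δ, hδ, hball⟩ := Metric.eventually_nhds_iff.1 hall
  set C0 : ℝ := ∑ k, ∑ i, |C k i| with hC0
  have hC00 : 0 ≤ C0 := Finset.sum_nonneg fun k _ => Finset.sum_nonneg fun i _ => abs_nonneg _
  have hCle : ∀ k i, C k i ≤ C0 := fun k i =>
    (le_abs_self _).trans ((Finset.single_le_sum (f := fun i => |C k i|)
      (fun j _ => abs_nonneg _) (Finset.mem_univ i)).trans
      (Finset.single_le_sum (f := fun k => ∑ i, |C k i|)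
      (fun k _ => Finset.sum_nonneg fun i _ => abs_nonneg _) (Finset.mem_univ k)))
  have hnice : ∀ k i, Nice δ C0 (φ k i) := by
    intro k i ζ hζ
    obtain ⟨-, -, -, h⟩ := hball (y := ζ) (by rwa [dist_zero_right])
    obtain ⟨a1, a2, a3, a4⟩ := h k i
    exact ⟨a1, a2, a3.trans (hCle k i), a4.trans (hCle k i)⟩
  set ρ : ℝ := min (δ / 2) (ε / (2 * Real.pi * (C0 + 1))) with hρdef
  have hpi := Real.pi_pos
  have hρ : 0 < ρ := lt_min (by linarith) (by positivity)
  have hρδ : ρ < δ := (min_le_left _ _).trans_lt (by linarith)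
  have hρε : C0 * (2 * Real.pi * ρ) ≤ ε := by
    have h1 : ρ ≤ ε / (2 * Real.pi * (C0 + 1)) := min_le_right _ _
    rw [le_div_iff₀ (by positivity)] at h1
    calc C0 * (2 * Real.pi * ρ) ≤ (C0 + 1) * (2 * Real.pi * ρ) :=
          mul_le_mul_of_nonneg_right (by linarith) (by positivity)
      _ = ρ * (2 * Real.pi * (C0 + 1)) := by ring
      _ ≤ ε := h1
  set M : ℝ := (C0 + (d + 1) * |Real.log ρ|) / ε + 1 with hM
  have hM1 : 1 ≤ M := by
    have : 0 ≤ (C0 + (d + 1) * |Real.log ρ|) / ε := by positivity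
    rw [hM]
    linarith
  refine ⟨min (ρ ^ (d + 1)) (Real.exp (-M)), lt_min (by positivity) (Real.exp_pos _),
    fun η hη0 hη => ?_⟩
  have hηρ : ‖η‖ ≤ ρ ^ (d + 1) := (hη.trans_le (min_le_left _ _)).le
  have hlog : Real.log ‖η‖ < -M := by
    rw [Real.log_lt_iff_lt_exp (norm_pos_iff.2 hη0)]
    exact hη.trans_le (min_le_right _ _)
  have hlog0 : Real.log ‖η‖ ≠ 0 := by linarith
  have habs : M ≤ |Real.log ‖η‖| := by
    rw [abs_of_neg (by linarith)]
    linarith
  refine ⟨hlog0, ?_⟩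
  have hz : ∀ θ : Fin d → ℝ, ‖zt ρ η θ‖ < δ := fun θ => (norm_zt_le hρ hηρ θ).trans_lt hρδ
  have hb := fun θ : Fin d → ℝ => hball (y := zt ρ η θ) (by rw [dist_zero_right]; exact hz θ)
  set X : (Fin d → ℝ) → (Fin (d + 2) → ℂ) := fun θ => xx β k0 J ((zt ρ η θ).1, Y (zt ρ η θ))
    with hX
  have hfac : ∀ θ k i, X θ k - β k i = (if i = J k then mon k0 (zt ρ η θ) k else 1) *
      φ k i (zt ρ η θ) := fun θ k i => (hb θ).2.2.1 k i
  refine ⟨X, ?_, fun θ i => ?_, fun θ => sum_xx β k0 J _, fun θ => ?_, fun k i θ => ?_⟩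
  · rw [contDiff_iff_contDiffAt]
    intro θ
    have h1 : ContDiffAt ℝ 2 (fun ζ : (Fin d → ℂ) × ℂ => xx β k0 J (ζ.1, Y ζ)) (zt ρ η θ) := by
      refine ContDiffAt.restrict_scalars ℝ (𝕜' := ℂ) ?_
      exact ((contDiff_xx β k0 J).contDiffAt).comp (zt ρ η θ)
        (contDiffAt_fst.prodMk (hb θ).1)
    exact h1.comp θ (contDiff_zt hρ hη0).contDiffAt
  · simp only [hX]
    rw [zt_add_single]
  · show ∏ k, ∏ i, (xx β k0 J ((zt ρ η θ).1, Y (zt ρ η θ)) k - β k i) = η
    rw [prod_xx]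
    have h1 : Y (zt ρ η θ) * QQ β k0 J ((zt ρ η θ).1, Y (zt ρ η θ)) = (zt ρ η θ).2 := (hb θ).2.1
    show (∏ k, (zt ρ η θ).1 k) * (Y (zt ρ η θ) * QQ β k0 J ((zt ρ η θ).1, Y (zt ρ η θ))) = η
    rw [h1]
    exact mul_div_cancel₀ _ ((good_prod_circ hρ).ne_zero θ)
  · have hg := good_nice hρ hρδ hη0 hηρ (hnice k i)
    have hl := fun j => lw_nice hρ hρδ hη0 hηρ (hnice k i) j θ
    obtain ⟨hm1, hm2, hm3⟩ := mono_props k0 hρ hη0 k
    have hn := (hnice k i) _ (hz θ)
    have hpos : 0 < |Real.log ‖η‖| := abs_pos.2 hlog0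
    have hbound : C0 + (d + 1) * |Real.log ρ| ≤ ε * |Real.log ‖η‖| := by
      have h1 : (C0 + (d + 1) * |Real.log ρ|) / ε ≤ |Real.log ‖η‖| := by linarith
      rw [div_le_iff₀ hε] at h1
      linarith
    by_cases hi : i = J k
    · have hrow : rowJ k0 J k i = row k0 k := by
        unfold rowJ
        rw [if_pos hi]
      rw [hrow]
      have hfac' : ∀ θ, X θ k - β k i = mon k0 (zt ρ η θ) k * φ k i (zt ρ η θ) := by
        intro θ
        rw [hfac, if_pos hi]
      simp only [hfac']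
      refine ⟨?_, fun j => ?_⟩
      · rw [norm_mul, Real.log_mul (norm_ne_zero_iff.2 (hm1.ne_zero θ))
          (norm_ne_zero_iff.2 hn.2.1)]
        have e : (Real.log ‖mon k0 (zt ρ η θ) k‖ + Real.log ‖φ k i (zt ρ η θ)‖) /
            Real.log ‖η‖ - row k0 k 0 = ((Real.log ‖mon k0 (zt ρ η θ) k‖ -
              row k0 k 0 * Real.log ‖η‖) + Real.log ‖φ k i (zt ρ η θ)‖) / Real.log ‖η‖ := by
          field_simp
          ring
        rw [e, abs_div, div_le_iff₀ hpos]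
        refine (abs_add_le _ _).trans ?_
        have := hm3 θ
        have := hn.2.2.1
        linarith
      · rw [lw_mul hm1 hg, hm2, add_sub_cancel_left]
        exact (hl j).trans hρε
    · have hrow : rowJ k0 J k i = 0 := by
        unfold rowJ
        rw [if_neg hi]
      rw [hrow]
      have hfac' : ∀ θ, X θ k - β k i = φ k i (zt ρ η θ) := by
        intro θ
        rw [hfac, if_neg hi, one_mul]
      simp only [hfac']
      refine ⟨?_, fun j => ?_⟩
      · rw [Pi.zero_apply, sub_zero, abs_div, div_le_iff₀ hpos]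
        have := hn.2.2.1
        have h2 : 0 ≤ (d + 1) * |Real.log ρ| := by positivity
        linarith
      · rw [Pi.zero_apply, Complex.ofReal_zero, mul_zero, sub_zero]
        exact (hl j).trans hρε

end pts

end Pool.Agent.TH826.SX
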